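import Mathlib

/-!
Abstract classes of relatively enumerable sets.
-/

set_option autoImplicit false

open Encodable

namespace Pool.Agent.H362Z.PRT

/-- A class of sets of numbers with the closure properties of the sets that are enumerable
relative to a Turing ideal. -/
structure SA where
  S : Set (Set ℕ)
  base : ∀ p : ℕ → Prop, PrimrecPred p → {n | p n} ∈ S
  subst : ∀ s ∈ S, ∀ f : ℕ → ℕ, Primrec f → f ⁻¹' s ∈ S
  inter : ∀ s ∈ S, ∀ t ∈ S, s ∩ t ∈ S
  union : ∀ s ∈ S, ∀ t ∈ S, s ∪ t ∈ S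
  proj : ∀ s ∈ S, {n | ∃ k, Nat.pair n k ∈ s} ∈ S
  ball : ∀ s ∈ S, {n | ∀ i < n.unpair.2, Nat.pair n.unpair.1 i ∈ s} ∈ S

variable {M : SA} {α β γ : Type} [Primcodable α] [Primcodable β] [Primcodable γ]

/-- enumerable predicates -/
def CE (M : SA) {α : Type} [Primcodable α] (p : α → Prop) : Prop :=
  ∃ s ∈ M.S, ∀ a, p a ↔ encode a ∈ s

lemma exists_nat_primrec {f : α → β} (hf : Primrec f) :
    ∃ g : ℕ → ℕ, Primrec g ∧ ∀ a, g (encode a) = encode (f a) := by
  refine ⟨fun n => (encode ((decode (α := α) n).map f)).pred, ?_, fun a => by simp⟩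
  exact Primrec.pred.comp (Primrec.encode.comp (Primrec.option_map Primrec.decode
    (hf.comp Primrec.snd).to₂))

namespace CE

lemma of_iff {p q : α → Prop} (h : CE M p) (e : ∀ a, p a ↔ q a) : CE M q := by
  obtain ⟨s, hs, h⟩ := h
  exact ⟨s, hs, fun a => (e a).symm.trans (h a)⟩

lemma prim {p : β → Prop} (h : CE M p) {f : α → β} (hf : Primrec f) : CE M fun a => p (f a) := by
  obtain ⟨s, hs, h⟩ := h
  obtain ⟨g, hg, e⟩ := exists_nat_primrec hf
  exact ⟨g ⁻¹' s, M.subst s hs g hg, fun a => by simp [h, e]⟩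

lemma of_prim {p : α → Prop} (h : PrimrecPred p) : CE M p := by
  classical
  have h1 : Primrec fun a => decide (p a) := by
    obtain ⟨_, h⟩ := h
    exact h.of_eq fun a => by congr
  obtain ⟨g, hg, e⟩ := exists_nat_primrec h1
  refine ⟨{n | g n = encode true}, M.base _ (Primrec.eq.comp hg (Primrec.const _)), fun a => ?_⟩
  simp only [Set.mem_ofPred_eq, e]
  by_cases hp : p a <;> simp [hp]

lemma and {p q : α → Prop} (hp : CE M p) (hq : CE M q) : CE M fun a => p a ∧ q a := by
  obtain ⟨s, hs, h⟩ := hp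
  obtain ⟨t, ht, h'⟩ := hq
  exact ⟨s ∩ t, M.inter s hs t ht, fun a => by simp [h, h']⟩

lemma or {p q : α → Prop} (hp : CE M p) (hq : CE M q) : CE M fun a => p a ∨ q a := by
  obtain ⟨s, hs, h⟩ := hp
  obtain ⟨t, ht, h'⟩ := hq
  exact ⟨s ∪ t, M.union s hs t ht, fun a => by simp [h, h']⟩

lemma exNat {p : α → ℕ → Prop} (hp : CE M fun x : α × ℕ => p x.1 x.2) :
    CE M fun a => ∃ b, p a b := by
  obtain ⟨s, hs, h⟩ := hp
  refine ⟨_, M.proj s hs, fun a => ?_⟩
  simp only [Set.mem_ofPred_eq]
  exact exists_congr fun b => by simpa using h (a, b)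

lemma ex {p : α → β → Prop} (hp : CE M fun x : α × β => p x.1 x.2) :
    CE M fun a => ∃ b, p a b := by
  classical
  by_cases hβ : Nonempty β
  · obtain ⟨b0⟩ := hβ
    have h1 : CE M fun x : α × ℕ => p x.1 ((decode (α := β) x.2).getD b0) :=
      hp.prim (f := fun x : α × ℕ => (x.1, (decode (α := β) x.2).getD b0))
        (Primrec.fst.pair (Primrec.option_getD.comp (Primrec.decode.comp Primrec.snd)
          (Primrec.const b0)))
    refine (exNat (p := fun a n => p a ((decode (α := β) n).getD b0)) h1).of_iff fun a => ?_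
    constructor
    · rintro ⟨n, hn⟩
      exact ⟨_, hn⟩
    · rintro ⟨b, hb⟩
      exact ⟨encode b, by simpa using hb⟩
  · refine (of_prim (p := fun _ : α => False) ⟨inferInstance, Primrec.const false⟩).of_iff
      fun a => ⟨False.elim, ?_⟩
    rintro ⟨b, -⟩
    exact hβ ⟨b⟩

lemma ball' {p : α → ℕ → Prop} (hp : CE M fun x : α × ℕ => p x.1 x.2) :
    CE M fun x : α × ℕ => ∀ i < x.2, p x.1 i := by
  obtain ⟨s, hs, h⟩ := hp
  refine ⟨_, M.ball s hs, fun a => ?_⟩
  obtain ⟨a, n⟩ := a
  simp only [Set.mem_ofPred_eq, encode_prod_val, encode_nat, Nat.unpair_pair]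
  exact forall₂_congr fun b _ => by simpa using h (a, b)

end CE

/-- functions with enumerable graph -/
@[fun_prop]
def InM (M : SA) {α β : Type} [Primcodable α] [Primcodable β] (f : α → β) : Prop :=
  CE M fun x : α × β => f x.1 = x.2

lemma CE.comp {p : β → Prop} (h : CE M p) {f : α → β} (hf : InM M f) : CE M fun a => p (f a) := by
  have h1 : CE M fun x : α × β => f x.1 = x.2 ∧ p x.2 := CE.and hf (h.prim Primrec.snd)
  refine (CE.ex (p := fun a b => f a = b ∧ p b) h1).of_iff fun a => by simp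

namespace InM

lemma of_prim {f : α → β} (hf : Primrec f) : InM M f :=
  CE.of_prim (Primrec.eq.comp (hf.comp Primrec.fst) Primrec.snd)

@[fun_prop] lemma id' : InM M fun a : α => a := of_prim Primrec.id

@[fun_prop] lemma const (b : β) : InM M fun _ : α => b := of_prim (Primrec.const b)

@[fun_prop] lemma comp {f : β → γ} {g : α → β} (hf : InM M f) (hg : InM M g) :
    InM M fun a => f (g a) := by
  have h1 : CE M fun x : (α × γ) × β => g x.1.1 = x.2 ∧ f x.2 = x.1.2 :=
    CE.and (CE.prim hg (f := fun x : (α × γ) × β => (x.1.1, x.2))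
        ((Primrec.fst.comp Primrec.fst).pair Primrec.snd))
      (CE.prim hf (f := fun x : (α × γ) × β => (x.2, x.1.2))
        (Primrec.snd.pair (Primrec.snd.comp Primrec.fst)))
  refine (CE.ex (p := fun (x : α × γ) b => g x.1 = b ∧ f b = x.2) h1).of_iff fun a => by simp

@[fun_prop] lemma pair {f : α → β} {g : α → γ} (hf : InM M f) (hg : InM M g) :
    InM M fun a => (f a, g a) := by
  have h1 : CE M fun x : α × (β × γ) => f x.1 = x.2.1 ∧ g x.1 = x.2.2 :=
    CE.and (CE.prim hf (f := fun x : α × (β × γ) => (x.1, x.2.1))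
        (Primrec.fst.pair (Primrec.fst.comp Primrec.snd)))
      (CE.prim hg (f := fun x : α × (β × γ) => (x.1, x.2.2))
        (Primrec.fst.pair (Primrec.snd.comp Primrec.snd)))
  exact h1.of_iff fun x => by simp [Prod.ext_iff]

@[fun_prop] lemma fst {f : α → β × γ} (hf : InM M f) : InM M fun a => (f a).1 :=
  comp (of_prim Primrec.fst) hf

@[fun_prop] lemma snd {f : α → β × γ} (hf : InM M f) : InM M fun a => (f a).2 :=
  comp (of_prim Primrec.snd) hf

lemma prim₁ {δ : Type} [Primcodable δ] {F : β → δ} (hF : Primrec F) {f : α → β} (hf : InM M f) :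
    InM M fun a => F (f a) := comp (of_prim hF) hf

lemma prim₂ {δ : Type} [Primcodable δ] {F : β → γ → δ} (hF : Primrec₂ F) {f : α → β} {g : α → γ}
    (hf : InM M f) (hg : InM M g) : InM M fun a => F (f a) (g a) :=
  comp (f := fun x : β × γ => F x.1 x.2) (of_prim hF) (pair hf hg)

@[fun_prop] lemma add {f g : α → ℕ} (hf : InM M f) (hg : InM M g) : InM M fun a => f a + g a :=
  prim₂ Primrec.nat_add hf hg

@[fun_prop] lemma mul {f g : α → ℕ} (hf : InM M f) (hg : InM M g) : InM M fun a => f a * g a :=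
  prim₂ Primrec.nat_mul hf hg

@[fun_prop] lemma npair {f g : α → ℕ} (hf : InM M f) (hg : InM M g) :
    InM M fun a => Nat.pair (f a) (g a) := prim₂ Primrec₂.natPair hf hg

@[fun_prop] lemma unpair {f : α → ℕ} (hf : InM M f) : InM M fun a => Nat.unpair (f a) :=
  prim₁ Primrec.unpair hf

@[fun_prop] lemma length {f : α → List β} (hf : InM M f) : InM M fun a => (f a).length :=
  prim₁ Primrec.list_length hf

@[fun_prop] lemma range {f : α → ℕ} (hf : InM M f) : InM M fun a => List.range (f a) :=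
  prim₁ Primrec.list_range hf

@[fun_prop] lemma take {f : α → ℕ} {g : α → List β} (hf : InM M f) (hg : InM M g) :
    InM M fun a => List.take (f a) (g a) := prim₂ Primrec.list_take hf hg

@[fun_prop] lemma cons {f : α → β} {g : α → List β} (hf : InM M f) (hg : InM M g) :
    InM M fun a => f a :: g a := prim₂ Primrec.list_cons hf hg

@[fun_prop] lemma append {f g : α → List β} (hf : InM M f) (hg : InM M g) :
    InM M fun a => f a ++ g a := prim₂ Primrec.list_append hf hg

@[fun_prop] lemma getD (d : β) {f : α → List β} {g : α → ℕ} (hf : InM M f) (hg : InM M g) :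
    InM M fun a => List.getD (f a) (g a) d := prim₂ (Primrec.list_getD d) hf hg

@[fun_prop] lemma enc {f : α → β} (hf : InM M f) : InM M fun a => encode (f a) :=
  prim₁ Primrec.encode hf

@[fun_prop] lemma band {f g : α → Bool} (hf : InM M f) (hg : InM M g) :
    InM M fun a => (f a && g a) := prim₂ Primrec.and hf hg

lemma fin [Finite β] (F : β → γ) {f : α → β} (hf : InM M f) : InM M fun a => F (f a) :=
  prim₁ (Primrec.dom_finite F) hf

end InM

namespace CE

lemma ball {p : α → ℕ → Prop} {t : α → ℕ} (ht : InM M t) (hp : CE M fun x : α × ℕ => p x.1 x.2) :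
    CE M fun a => ∀ i < t a, p a i :=
  (ball' hp).comp (f := fun a => (a, t a)) (by fun_prop)

lemma eq {f g : α → β} (hf : InM M f) (hg : InM M g) : CE M fun a => f a = g a :=
  (of_prim (p := fun x : β × β => x.1 = x.2) Primrec.eq).comp (f := fun a => (f a, g a))
    (by fun_prop)

lemma ne {f g : α → β} (hf : InM M f) (hg : InM M g) : CE M fun a => f a ≠ g a :=
  (of_prim (p := fun x : β × β => ¬ x.1 = x.2) (PrimrecPred.not Primrec.eq)).comp
    (f := fun a => (f a, g a)) (by fun_prop)

lemma lt {f g : α → ℕ} (hf : InM M f) (hg : InM M g) : CE M fun a => f a < g a :=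
  (of_prim (p := fun x : ℕ × ℕ => x.1 < x.2) Primrec.nat_lt).comp (f := fun a => (f a, g a))
    (by fun_prop)

lemma le {f g : α → ℕ} (hf : InM M f) (hg : InM M g) : CE M fun a => f a ≤ g a :=
  (of_prim (p := fun x : ℕ × ℕ => x.1 ≤ x.2) Primrec.nat_le).comp (f := fun a => (f a, g a))
    (by fun_prop)

lemma const (q : Prop) : CE M fun _ : α => q := by
  classical
  exact of_prim ⟨fun _ => Classical.propDecidable q, Primrec.const _⟩

lemma fin [Finite β] (q : β → Prop) {f : α → β} (hf : InM M f) : CE M fun a => q (f a) := by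
  classical
  exact (of_prim (p := q) ⟨inferInstance, Primrec.dom_finite _⟩).comp hf

lemma allMem {p : α → β → Prop} {t : α → List β} (ht : InM M t)
    (hp : CE M fun x : α × β => p x.1 x.2) : CE M fun a => ∀ b ∈ t a, p a b := by
  by_cases hβ : Nonempty β
  · obtain ⟨b0⟩ := hβ
    have h1 : CE M fun a => ∀ i < (t a).length, p a ((t a).getD i b0) :=
      ball (p := fun a i => p a ((t a).getD i b0)) (by fun_prop)
        (hp.comp (f := fun x : α × ℕ => (x.1, (t x.1).getD x.2 b0)) (by fun_prop))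
    refine h1.of_iff fun a => ⟨fun h b hb => ?_, fun h i hi => ?_⟩
    · obtain ⟨i, hi, rfl⟩ := List.getElem_of_mem hb
      have := h i hi
      rwa [List.getD_eq_getElem _ _ hi] at this
    · rw [List.getD_eq_getElem _ _ hi]
      exact h _ (List.getElem_mem hi)
  · exact (const True).of_iff fun a => ⟨fun _ b => (hβ ⟨b⟩).elim, fun _ => trivial⟩

lemma mem {f : α → β} {t : α → List β} (hf : InM M f) (ht : InM M t) :
    CE M fun a => f a ∈ t a := by
  have h1 : CE M fun a => ∃ i, (t a)[i]? = some (f a) :=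
    exNat (p := fun a i => (t a)[i]? = some (f a))
      (eq (InM.prim₂ Primrec.list_getElem? (by fun_prop) (by fun_prop))
        (InM.prim₁ Primrec.option_some (by fun_prop)))
  exact h1.of_iff fun a => List.mem_iff_getElem?.symm

end CE

/-- decidable predicates -/
def Dec (M : SA) {α : Type} [Primcodable α] (p : α → Prop) : Prop := CE M p ∧ CE M fun a => ¬ p a

namespace Dec

lemma of_iff {p q : α → Prop} (h : Dec M p) (e : ∀ a, p a ↔ q a) : Dec M q :=
  ⟨h.1.of_iff e, h.2.of_iff fun a => not_congr (e a)⟩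

lemma comp {p : β → Prop} (h : Dec M p) {f : α → β} (hf : InM M f) : Dec M fun a => p (f a) :=
  ⟨h.1.comp hf, h.2.comp hf⟩

lemma not {p : α → Prop} (h : Dec M p) : Dec M fun a => ¬ p a :=
  ⟨h.2, h.1.of_iff fun _ => not_not.symm⟩

lemma and {p q : α → Prop} (hp : Dec M p) (hq : Dec M q) : Dec M fun a => p a ∧ q a :=
  ⟨hp.1.and hq.1, (hp.2.or hq.2).of_iff fun _ => not_and_or.symm⟩

lemma or {p q : α → Prop} (hp : Dec M p) (hq : Dec M q) : Dec M fun a => p a ∨ q a :=
  ⟨hp.1.or hq.1, (hp.2.and hq.2).of_iff fun _ => not_or.symm⟩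

lemma imp {p q : α → Prop} (hp : Dec M p) (hq : Dec M q) : Dec M fun a => p a → q a :=
  (hp.not.or hq).of_iff fun _ => imp_iff_not_or.symm

lemma eq {f g : α → β} (hf : InM M f) (hg : InM M g) : Dec M fun a => f a = g a :=
  ⟨CE.eq hf hg, CE.ne hf hg⟩

lemma lt {f g : α → ℕ} (hf : InM M f) (hg : InM M g) : Dec M fun a => f a < g a :=
  ⟨CE.lt hf hg, (CE.le hg hf).of_iff fun _ => not_lt.symm⟩

lemma le {f g : α → ℕ} (hf : InM M f) (hg : InM M g) : Dec M fun a => f a ≤ g a :=
  ⟨CE.le hf hg, (CE.lt hg hf).of_iff fun _ => not_le.symm⟩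

lemma ball {p : α → ℕ → Prop} {t : α → ℕ} (ht : InM M t)
    (hp : Dec M fun x : α × ℕ => p x.1 x.2) : Dec M fun a => ∀ i < t a, p a i := by
  refine ⟨CE.ball ht hp.1, ?_⟩
  have h1 : CE M fun a => ∃ i, i < t a ∧ ¬ p a i :=
    CE.exNat (p := fun a i => i < t a ∧ ¬ p a i) ((CE.lt (by fun_prop) (by fun_prop)).and hp.2)
  exact h1.of_iff fun a => by simp

lemma bex {p : α → ℕ → Prop} {t : α → ℕ} (ht : InM M t)
    (hp : Dec M fun x : α × ℕ => p x.1 x.2) : Dec M fun a => ∃ i < t a, p a i :=
  (ball (p := fun a i => ¬ p a i) ht hp.not).not.of_iff fun a => by simp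

lemma allMem {p : α → β → Prop} {t : α → List β} (ht : InM M t)
    (hp : Dec M fun x : α × β => p x.1 x.2) : Dec M fun a => ∀ b ∈ t a, p a b := by
  refine ⟨CE.allMem ht hp.1, ?_⟩
  have h1 : CE M fun a => ∃ b, b ∈ t a ∧ ¬ p a b :=
    CE.ex (p := fun a b => b ∈ t a ∧ ¬ p a b) ((CE.mem (by fun_prop) (by fun_prop)).and hp.2)
  exact h1.of_iff fun a => by simp

lemma mem {f : α → β} {t : α → List β} (hf : InM M f) (ht : InM M t) :
    Dec M fun a => f a ∈ t a :=
  (allMem (p := fun a b => ¬ f a = b) ht (eq (by fun_prop) (by fun_prop)).not).not.of_iff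
    fun a => by simp

lemma inM {p : α → Prop} [DecidablePred p] (h : Dec M p) : InM M fun a => decide (p a) := by
  have h1 : CE M fun x : α × Bool => (p x.1 ∧ x.2 = true) ∨ (¬ p x.1 ∧ x.2 = false) :=
    ((h.1.comp (by fun_prop)).and (CE.eq (by fun_prop) (by fun_prop))).or
      ((h.2.comp (f := fun x : α × Bool => x.1) (by fun_prop)).and
        (CE.eq (by fun_prop) (by fun_prop)))
  refine h1.of_iff fun x => ?_
  obtain ⟨a, b⟩ := x
  by_cases hp : p a <;> cases b <;> simp [hp]

end Dec

namespace InM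

lemma find {p : α → ℕ → Prop} [∀ a, DecidablePred (p a)] (hp : Dec M fun x : α × ℕ => p x.1 x.2)
    (h : ∀ a, ∃ n, p a n) : InM M fun a => Nat.find (h a) := by
  have h1 : CE M fun x : α × ℕ => p x.1 x.2 ∧ ∀ i < x.2, ¬ p x.1 i :=
    hp.1.and (CE.ball' (p := fun a i => ¬ p a i) hp.2)
  exact h1.of_iff fun x => (Nat.find_eq_iff (h x.1)).symm

lemma iterate {f : α → α} (hf : InM M f) (a0 : α) : InM M fun n : ℕ => f^[n] a0 := by
  have h1 : CE M fun x : ℕ × α => ∃ l : List α, l.getD 0 a0 = a0 ∧ l.getD x.1 a0 = x.2 ∧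
      ∀ i < x.1, f (l.getD i a0) = l.getD (i + 1) a0 :=
    CE.ex (p := fun (x : ℕ × α) (l : List α) => l.getD 0 a0 = a0 ∧ l.getD x.1 a0 = x.2 ∧
      ∀ i < x.1, f (l.getD i a0) = l.getD (i + 1) a0)
      ((CE.eq (by fun_prop) (by fun_prop)).and ((CE.eq (by fun_prop) (by fun_prop)).and
        (CE.ball (p := fun (x : (ℕ × α) × List α) i => f (x.2.getD i a0) = x.2.getD (i + 1) a0)
          (by fun_prop) (CE.eq (by fun_prop) (by fun_prop)))))
  refine h1.of_iff fun x => ?_
  obtain ⟨n, a⟩ := x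
  constructor
  · rintro ⟨l, h0, h1, h2⟩
    have : ∀ i ≤ n, f^[i] a0 = l.getD i a0 := by
      intro i
      induction i with
      | zero => intro _; exact h0.symm
      | succ i ih =>
        intro hi
        rw [Function.iterate_succ_apply', ih (by omega)]
        exact h2 i hi
    exact (this n le_rfl).trans h1
  · intro h
    have key : ∀ i ≤ n, ((List.range (n + 1)).map fun i => f^[i] a0).getD i a0 = f^[i] a0 := by
      intro i hi
      rw [List.getD_eq_getElem _ _ (by simp; omega), List.getElem_map, List.getElem_range]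
    refine ⟨(List.range (n + 1)).map fun i => f^[i] a0, key 0 (by omega), (key n le_rfl).trans h,
      fun i hi => ?_⟩
    have hi' : i < n := hi
    rw [key i hi'.le, key (i + 1) hi', Function.iterate_succ_apply']

lemma mapRange {g : α → ℕ → β} {t : α → ℕ} (ht : InM M t) (hg : InM M fun x : α × ℕ => g x.1 x.2) :
    InM M fun a => (List.range (t a)).map (g a) := by
  have h1 : CE M fun x : α × List β => x.2.length = t x.1 ∧
      ∀ i < t x.1, x.2[i]? = some (g x.1 i) :=
    (CE.eq (by fun_prop) (by fun_prop)).and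
      (CE.ball (p := fun (x : α × List β) i => x.2[i]? = some (g x.1 i)) (by fun_prop)
        (CE.eq (InM.prim₂ Primrec.list_getElem? (by fun_prop) (by fun_prop))
          (InM.prim₁ Primrec.option_some
            (hg.comp (g := fun x : (α × List β) × ℕ => (x.1.1, x.2)) (by fun_prop)))))
  refine h1.of_iff fun x => ?_
  obtain ⟨a, l⟩ := x
  dsimp only
  constructor
  · rintro ⟨h1, h2⟩
    apply List.ext_getElem?
    intro i
    by_cases hi : i < t a
    · rw [h2 i hi]; simp [hi]
    · rw [List.getElem?_eq_none (by simp; omega), List.getElem?_eq_none (by omega)]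
  · rintro rfl
    exact ⟨by simp, fun i hi => by simp [hi]⟩

end InM

/-- inclusion of classes -/
def Le (M N : SA) : Prop := M.S ⊆ N.S

lemma Le.refl (M : SA) : Le M M := fun _ h => h

lemma Le.trans {M N K : SA} (h : Le M N) (h' : Le N K) : Le M K := fun _ hs => h' (h hs)

lemma CE.mono {N : SA} (h : Le M N) {p : α → Prop} (hp : CE M p) : CE N p := by
  obtain ⟨s, hs, e⟩ := hp
  exact ⟨s, h hs, e⟩

lemma InM.mono {N : SA} (h : Le M N) {f : α → β} (hf : InM M f) : InM N f := CE.mono h hf

lemma Dec.mono {N : SA} (h : Le M N) {p : α → Prop} (hp : Dec M p) : Dec N p :=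
  ⟨hp.1.mono h, hp.2.mono h⟩

end Pool.Agent.H362Z.PRT
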