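import Pool.Agent.H362Z.PRT.A

/-!
Effectively open classes, adjoining a set, unions of chains.
-/

set_option autoImplicit false

open Encodable

namespace Pool.Agent.H362Z.PRT

variable {M : SA} {α β γ : Type} [Primcodable α] [Primcodable β] [Primcodable γ]

/-- initial segment -/
def pre {β : Type} (h : ℕ → β) (u : ℕ) : List β := (List.range u).map h

section
variable {δ : Type}

@[simp] lemma length_pre (h : ℕ → δ) (u : ℕ) : (pre h u).length = u := by simp [pre]

lemma pre_getElem? (h : ℕ → δ) {u x : ℕ} (hx : x < u) : (pre h u)[x]? = some (h x) := by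
  simp [pre, hx]

lemma pre_getD (h : ℕ → δ) {u x : ℕ} (hx : x < u) (d : δ) : (pre h u).getD x d = h x := by
  simp [pre, hx]

lemma take_pre (h : ℕ → δ) (u v : ℕ) : (pre h u).take v = pre h (min v u) := by
  simp [pre, ← List.map_take, List.take_range]

lemma pre_prefix (h : ℕ → δ) {u v : ℕ} (huv : u ≤ v) : pre h u <+: pre h v := by
  have := take_pre h v u
  rw [min_eq_left huv] at this
  rw [← this]
  exact List.take_prefix _ _

lemma pre_congr {h h' : ℕ → δ} {u : ℕ} (e : ∀ x < u, h x = h' x) : pre h u = pre h' u :=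
  List.map_congr_left fun x hx => e x (List.mem_range.1 hx)

lemma pre_getD_self (l : List δ) (d : δ) : pre (fun x => l.getD x d) l.length = l := by
  apply List.ext_getElem?
  intro i
  by_cases hi : i < l.length
  · rw [pre_getElem? _ hi, List.getD_eq_getElem _ _ hi, List.getElem?_eq_getElem hi]
  · rw [List.getElem?_eq_none (by simp; omega), List.getElem?_eq_none (by omega)]

lemma take_of_prefix {l l' : List δ} (h : l <+: l') (v : ℕ) :
    l.take v = l'.take (min v l.length) := by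
  obtain ⟨t, rfl⟩ := h
  rw [List.take_append_of_le_length (min_le_right _ _)]
  rcases le_total v l.length with h | h
  · rw [min_eq_left h]
  · rw [min_eq_right h, List.take_of_length_le h, List.take_length]

lemma compact_bound (L : List δ) (O : ℕ → (ℕ → δ) → Prop)
    (hmono : ∀ u v h, u ≤ v → O u h → O v h)
    (hloc : ∀ u h h', (∀ x < u, h x = h' x) → O u h → O u h')
    (H : ∀ h, (∀ x, h x ∈ L) → ∃ u, O u h) : ∃ u, ∀ h, (∀ x, h x ∈ L) → O u h := by
  let K := {b : δ // b ∈ L}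
  let _ : TopologicalSpace K := ⊥
  have : DiscreteTopology K := ⟨rfl⟩
  have : Finite K := (List.finite_toSet L).to_subtype
  let V : ℕ → Set (ℕ → K) := fun u => {h | O u fun x => (h x).1}
  have hV : ∀ u, IsOpen (V u) := by
    intro u
    rw [isOpen_iff_forall_mem_open]
    intro h hh
    refine ⟨⋂ x ∈ Finset.range u, {h' | h' x = h x}, ?_, ?_, by simp⟩
    · intro h' hh'
      simp only [Finset.mem_range, Set.mem_iInter, Set.mem_ofPred_eq] at hh'
      exact hloc u _ _ (fun x hx => by rw [hh' x hx]) hh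
    · exact isOpen_biInter_finset fun x _ =>
        (isOpen_discrete ({h x} : Set K)).preimage (continuous_apply (A := fun _ : ℕ => K) x)
  obtain ⟨u, hu⟩ := (isCompact_univ (X := ℕ → K)).elim_directed_cover V hV
    (fun h _ => Set.mem_iUnion.2 (H _ fun x => (h x).2))
    (directed_of_isDirected_le fun u v huv h hh => hmono u v _ huv hh)
  exact ⟨u, fun h hh => hu (Set.mem_univ fun x => (⟨h x, hh x⟩ : K))⟩

/-- all lists of a given length with entries in a list -/
def allL (L : List δ) (u : ℕ) : List (List δ) :=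
  (fun A : List (List δ) => A.flatMap fun l => L.map fun b => b :: l)^[u] [[]]

lemma mem_allL (L : List δ) (u : ℕ) (l : List δ) :
    l ∈ allL L u ↔ l.length = u ∧ ∀ b ∈ l, b ∈ L := by
  induction u generalizing l with
  | zero =>
    simp only [allL, Function.iterate_zero, id, List.mem_singleton, List.length_eq_zero_iff]
    exact ⟨fun h => by simp [h], fun h => h.1⟩
  | succ u ih =>
    unfold allL at ih ⊢
    rw [Function.iterate_succ_apply']
    simp only [List.mem_flatMap, List.mem_map]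
    constructor
    · rintro ⟨l', hl', b, hb, rfl⟩
      obtain ⟨h1, h2⟩ := (ih l').1 hl'
      exact ⟨by simp [h1], by simpa [hb] using h2⟩
    · rintro ⟨h1, h2⟩
      cases l with
      | nil => simp at h1
      | cons b l' =>
        refine ⟨l', (ih l').2 ⟨by simpa using h1, fun c hc => h2 c (by simp [hc])⟩, b,
          h2 b (by simp), rfl⟩

end

lemma primrec_allL : Primrec₂ (allL : List β → ℕ → List (List β)) := by
  unfold allL
  refine Primrec.nat_iterate (α := List β × ℕ) (f := fun x => x.2) (g := fun _ => [[]])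
    (h := fun x A => A.flatMap fun l => x.1.map fun b => b :: l) Primrec.snd (Primrec.const _) ?_
  refine Primrec.list_flatMap Primrec.snd ?_
  refine Primrec.list_map (Primrec.fst.comp (Primrec.fst.comp Primrec.fst)) ?_
  exact Primrec.list_cons.comp Primrec.snd (Primrec.snd.comp Primrec.fst)

/-- effectively open classes -/
def Sig (M : SA) {α β : Type} [Primcodable α] [Primcodable β] (O : α → (ℕ → β) → Prop) : Prop :=
  ∃ S : α → List β → Prop, CE M (fun x : α × List β => S x.1 x.2) ∧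
    (∀ a l l', l <+: l' → S a l → S a l') ∧ ∀ a h, O a h ↔ ∃ u, S a (pre h u)

namespace Sig

lemma mk' {O : α → (ℕ → β) → Prop} (S : α → List β → Prop)
    (hS : CE M fun x : α × List β => S x.1 x.2) (e : ∀ a h, O a h ↔ ∃ u, S a (pre h u)) :
    Sig M O := by
  refine ⟨fun a l => ∃ v, S a (l.take v), ?_, ?_, fun a h => ?_⟩
  · exact CE.exNat (p := fun (x : α × List β) v => S x.1 (x.2.take v))
      (hS.comp (f := fun x : (α × List β) × ℕ => (x.1.1, x.1.2.take x.2)) (by fun_prop))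
  · rintro a l l' hl ⟨v, hv⟩
    exact ⟨_, take_of_prefix hl v ▸ hv⟩
  · rw [e]
    constructor
    · rintro ⟨u, hu⟩
      exact ⟨u, u, by rwa [take_pre, min_self]⟩
    · rintro ⟨u, v, hu⟩
      exact ⟨_, take_pre h u v ▸ hu⟩

lemma of_iff {O O' : α → (ℕ → β) → Prop} (h : Sig M O) (e : ∀ a h, O a h ↔ O' a h) :
    Sig M O' := by
  obtain ⟨S, h1, h2, h3⟩ := h
  exact ⟨S, h1, h2, fun a h => (e a h).symm.trans (h3 a h)⟩

lemma mono {N : SA} (hN : Le M N) {O : α → (ℕ → β) → Prop} (h : Sig M O) : Sig N O := by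
  obtain ⟨S, h1, h2, h3⟩ := h
  exact ⟨S, h1.mono hN, h2, h3⟩

lemma of_ce {p : α → Prop} (hp : CE M p) : Sig M fun a (_ : ℕ → β) => p a :=
  ⟨fun a _ => p a, hp.comp (by fun_prop), fun _ _ _ _ h => h, fun _ _ => by simp⟩

lemma and {O O' : α → (ℕ → β) → Prop} (h : Sig M O) (h' : Sig M O') :
    Sig M fun a h => O a h ∧ O' a h := by
  obtain ⟨S, h1, h2, h3⟩ := h
  obtain ⟨S', h1', h2', h3'⟩ := h'
  refine ⟨fun a l => S a l ∧ S' a l, h1.and h1',
    fun a l l' hl h => ⟨h2 a l l' hl h.1, h2' a l l' hl h.2⟩, fun a h => ?_⟩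
  dsimp only
  rw [h3, h3']
  constructor
  · rintro ⟨⟨u, hu⟩, v, hv⟩
    exact ⟨max u v, h2 _ _ _ (pre_prefix h (le_max_left _ _)) hu,
      h2' _ _ _ (pre_prefix h (le_max_right _ _)) hv⟩
  · rintro ⟨u, hu, hv⟩
    exact ⟨⟨u, hu⟩, u, hv⟩

lemma or {O O' : α → (ℕ → β) → Prop} (h : Sig M O) (h' : Sig M O') :
    Sig M fun a h => O a h ∨ O' a h := by
  obtain ⟨S, h1, h2, h3⟩ := h
  obtain ⟨S', h1', h2', h3'⟩ := h'
  refine mk' (fun a l => S a l ∨ S' a l) (h1.or h1') fun a h => ?_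
  rw [h3, h3', exists_or]

lemma ex {O : α → γ → (ℕ → β) → Prop} (h : Sig M fun (x : α × γ) h => O x.1 x.2 h) :
    Sig M fun a h => ∃ c, O a c h := by
  obtain ⟨S, h1, h2, h3⟩ := h
  refine mk' (fun a l => ∃ c, S (a, c) l) ?_ fun a h => ?_
  · exact CE.ex (p := fun (x : α × List β) c => S (x.1, c) x.2)
      (h1.comp (f := fun x : (α × List β) × γ => ((x.1.1, x.2), x.1.2)) (by fun_prop))
  · rw [exists_comm]
    exact exists_congr fun c => h3 (a, c) h

lemma comp {O : γ → (ℕ → β) → Prop} (h : Sig M O) {k : α → γ} (hk : InM M k) :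
    Sig M fun a h => O (k a) h := by
  obtain ⟨S, h1, h2, h3⟩ := h
  exact ⟨fun a l => S (k a) l, h1.comp (f := fun x : α × List β => (k x.1, x.2)) (by fun_prop),
    fun a => h2 _, fun a => h3 _⟩

lemma ball {O : α → ℕ → (ℕ → β) → Prop} {t : α → ℕ} (ht : InM M t)
    (h : Sig M fun (x : α × ℕ) h => O x.1 x.2 h) : Sig M fun a h => ∀ i < t a, O a i h := by
  obtain ⟨S, h1, h2, h3⟩ := h
  refine mk' (fun a l => ∀ i < t a, S (a, i) l) ?_ fun a h => ?_
  · exact CE.ball (p := fun (x : α × List β) i => S (x.1, i) x.2) (by fun_prop)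
      (h1.comp (f := fun x : (α × List β) × ℕ => ((x.1.1, x.2), x.1.2)) (by fun_prop))
  · constructor
    · intro H
      have : ∀ i, ∃ u, i < t a → S (a, i) (pre h u) := by
        intro i
        by_cases hi : i < t a
        · obtain ⟨u, hu⟩ := (h3 (a, i) h).1 (H i hi)
          exact ⟨u, fun _ => hu⟩
        · exact ⟨0, fun h => absurd h hi⟩
      choose u hu using this
      refine ⟨(Finset.range (t a)).sup u, fun i hi => h2 _ _ _ (pre_prefix h ?_) (hu i hi)⟩
      exact Finset.le_sup (f := u) (Finset.mem_range.2 hi)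
    · rintro ⟨u, hu⟩ i hi
      exact (h3 (a, i) h).2 ⟨u, hu i hi⟩

lemma eval {p : α → β → Prop} (hp : CE M fun x : α × β => p x.1 x.2) {t : α → ℕ} (ht : InM M t) :
    Sig M fun a h => p a (h (t a)) := by
  refine mk' (fun a l => ∃ b, l[t a]? = some b ∧ p a b) ?_ fun a h => ?_
  · exact CE.ex (p := fun (x : α × List β) b => x.2[t x.1]? = some b ∧ p x.1 b)
      ((CE.eq (InM.prim₂ Primrec.list_getElem? (by fun_prop) (by fun_prop))
        (InM.prim₁ Primrec.option_some (by fun_prop))).and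
        (hp.comp (f := fun x : (α × List β) × β => (x.1.1, x.2)) (by fun_prop)))
  · constructor
    · intro H
      exact ⟨t a + 1, _, pre_getElem? h (Nat.lt_succ_self _), H⟩
    · rintro ⟨u, b, h1, h2⟩
      have hu : t a < u := by
        by_contra hc
        rw [List.getElem?_eq_none (by simp; omega)] at h1
        cases h1
      rw [pre_getElem? h hu] at h1
      cases h1
      exact h2

lemma comap [Inhabited β] {O : α → (ℕ → γ) → Prop} (h : Sig M O) {ψ : α → ℕ → β → γ}
    (hψ : InM M fun x : (α × ℕ) × β => ψ x.1.1 x.1.2 x.2) :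
    Sig M fun a (h : ℕ → β) => O a fun x => ψ a x (h x) := by
  obtain ⟨S, h1, h2, h3⟩ := h
  refine mk' (fun a l => S a ((List.range l.length).map fun x => ψ a x (l.getD x default))) ?_
    fun a h => ?_
  · refine h1.comp (f := fun x : α × List β =>
      (x.1, (List.range x.2.length).map fun y => ψ x.1 y (x.2.getD y default))) ?_
    refine InM.pair (by fun_prop) (InM.mapRange
      (g := fun (x : α × List β) y => ψ x.1 y (x.2.getD y default)) (by fun_prop) ?_)
    exact hψ.comp (g := fun x : (α × List β) × ℕ => ((x.1.1, x.2), x.1.2.getD x.2 default))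
      (by fun_prop)
  · rw [h3]
    refine exists_congr fun u => ?_
    have : ((List.range (pre h u).length).map fun x => ψ a x ((pre h u).getD x default)) =
        pre (fun x => ψ a x (h x)) u := by
      rw [length_pre]
      exact List.map_congr_left fun x hx => by rw [pre_getD h (List.mem_range.1 hx)]
    rw [this]

lemma ce_forall {O : α → (ℕ → β) → Prop} (h : Sig M O) {L : α → List β} (hL : InM M L) :
    CE M fun a => ∀ h : ℕ → β, (∀ x, h x ∈ L a) → O a h := by
  obtain ⟨S, h1, h2, h3⟩ := h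
  have H : CE M fun a => ∃ u, ∀ l ∈ allL (L a) u, S a l :=
    CE.exNat (p := fun a u => ∀ l ∈ allL (L a) u, S a l)
      (CE.allMem (p := fun (x : α × ℕ) l => S x.1 l)
        (InM.prim₂ primrec_allL (by fun_prop) (by fun_prop))
        (h1.comp (f := fun x : (α × ℕ) × List β => (x.1.1, x.2)) (by fun_prop)))
  refine H.of_iff fun a => ⟨?_, fun H => ?_⟩
  · rintro ⟨u, hu⟩ h hh
    refine (h3 a h).2 ⟨u, hu _ ((mem_allL _ _ _).2 ⟨length_pre _ _, fun b hb => ?_⟩)⟩
    obtain ⟨x, -, rfl⟩ := List.mem_map.1 hb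
    exact hh x
  · obtain ⟨u, hu⟩ := compact_bound (L a) (fun u h => S a (pre h u))
      (fun u v h huv => h2 _ _ _ (pre_prefix h huv))
      (fun u h h' e => by rw [pre_congr e]; exact id) (fun h hh => (h3 a h).1 (H h hh))
    refine ⟨u + 1, fun l hl => ?_⟩
    obtain ⟨h4, h5⟩ := (mem_allL _ _ _).1 hl
    have h6 : 0 < l.length := by omega
    have h7 := hu (fun x => l.getD x l[0]) fun x => by
      by_cases hx : x < l.length
      · rw [List.getD_eq_getElem _ _ hx]; exact h5 _ (List.getElem_mem hx)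
      · rw [List.getD_eq_default _ _ (by omega)]; exact h5 _ (List.getElem_mem h6)
    have h8 := h2 _ _ _ (pre_prefix _ (show u ≤ l.length by omega)) h7
    rwa [pre_getD_self] at h8

lemma loc {O : α → (ℕ → β) → Prop} (h : Sig M O) {a : α} {g : ℕ → β} (hg : O a g) :
    ∃ u, ∀ g', (∀ x < u, g x = g' x) → O a g' := by
  obtain ⟨S, h1, h2, h3⟩ := h
  obtain ⟨u, hu⟩ := (h3 a g).1 hg
  exact ⟨u, fun g' e => (h3 a g').2 ⟨u, pre_congr e ▸ hu⟩⟩

end Sig

/-- the class obtained by adjoining a set -/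
def adj (M : SA) (G : ℕ → Bool) : SA where
  S := {s | ∃ O : ℕ → (ℕ → Bool) → Prop, Sig M O ∧ ∀ n, n ∈ s ↔ O n G}
  base p hp := ⟨fun n _ => p n, Sig.of_ce (CE.of_prim hp), fun _ => Iff.rfl⟩
  subst := by
    rintro s ⟨O, h1, h2⟩ f hf
    exact ⟨fun n h => O (f n) h, h1.comp (InM.of_prim hf), fun n => h2 _⟩
  inter := by
    rintro s ⟨O, h1, h2⟩ t ⟨O', h1', h2'⟩
    exact ⟨_, h1.and h1', fun n => and_congr (h2 n) (h2' n)⟩
  union := by
    rintro s ⟨O, h1, h2⟩ t ⟨O', h1', h2'⟩
    exact ⟨_, h1.or h1', fun n => or_congr (h2 n) (h2' n)⟩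
  proj := by
    rintro s ⟨O, h1, h2⟩
    exact ⟨_, Sig.ex (O := fun n k h => O (Nat.pair n k) h)
      (h1.comp (k := fun x : ℕ × ℕ => Nat.pair x.1 x.2) (by fun_prop)),
      fun n => exists_congr fun k => h2 _⟩
  ball := by
    rintro s ⟨O, h1, h2⟩
    exact ⟨_, Sig.ball (O := fun (n : ℕ) i h => O (Nat.pair n.unpair.1 i) h)
      (t := fun n : ℕ => n.unpair.2)
      (by fun_prop)
      (h1.comp (k := fun x : ℕ × ℕ => Nat.pair x.1.unpair.1 x.2) (by fun_prop)),
      fun n => forall₂_congr fun i _ => h2 _⟩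

lemma ce_of_mem {s : Set ℕ} (hs : s ∈ M.S) : CE M fun n => n ∈ s := ⟨s, hs, fun _ => Iff.rfl⟩

lemma mem_of_ce {s : Set ℕ} (hs : CE M fun n => n ∈ s) : s ∈ M.S := by
  obtain ⟨t, ht, e⟩ := hs
  have : s = t := Set.ext fun n => by simpa using e n
  rwa [this]

lemma le_adj (M : SA) (G : ℕ → Bool) : Le M (adj M G) :=
  fun s hs => ⟨fun n _ => n ∈ s, Sig.of_ce (ce_of_mem hs), fun _ => Iff.rfl⟩

lemma inM_adj (M : SA) (G : ℕ → Bool) : InM (adj M G) G := by
  refine ⟨{n | encode (G n.unpair.1) = n.unpair.2}, ⟨fun n h => encode (h n.unpair.1) = n.unpair.2,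
    Sig.eval (p := fun (n : ℕ) (b : Bool) => encode b = n.unpair.2)
      (CE.eq (by fun_prop) (by fun_prop)) (by fun_prop), fun _ => Iff.rfl⟩, fun x => ?_⟩
  obtain ⟨n, b⟩ := x
  simp [encode_injective.eq_iff]

lemma sig_of_ce_adj {G : ℕ → Bool} {p : α → Prop} (hp : CE (adj M G) p) :
    ∃ O : α → (ℕ → Bool) → Prop, Sig M O ∧ ∀ a, p a ↔ O a G := by
  obtain ⟨s, ⟨O, h1, h2⟩, e⟩ := hp
  exact ⟨fun a h => O (encode a) h, h1.comp (by fun_prop), fun a => (e a).trans (h2 _)⟩

lemma countable_ce (hM : M.S.Countable) : {p : α → Prop | CE M p}.Countable := by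
  refine (hM.image fun s => fun a : α => encode a ∈ s).mono ?_
  rintro p ⟨s, hs, e⟩
  exact ⟨s, hs, funext fun a => propext (e a).symm⟩

lemma countable_adj (hM : M.S.Countable) (G : ℕ → Bool) : (adj M G).S.Countable := by
  refine ((countable_ce (α := ℕ × List Bool) hM).image
    fun S => {n | ∃ u, S (n, pre G u)}).mono ?_
  rintro s ⟨O, ⟨S, h1, -, h3⟩, h2⟩
  exact ⟨_, h1, Set.ext fun n => ((h2 n).trans (h3 n G)).symm⟩

/-- the union of a chain -/
def sup (N : ℕ → SA) (hN : ∀ t, Le (N t) (N (t + 1))) : SA where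
  S := {s | ∃ t, s ∈ (N t).S}
  base p hp := ⟨0, (N 0).base p hp⟩
  subst := by
    rintro s ⟨t, hs⟩ f hf
    exact ⟨t, (N t).subst s hs f hf⟩
  inter := by
    rintro s ⟨t, hs⟩ s' ⟨t', hs'⟩
    have hm : Monotone fun t => (N t).S := monotone_nat_of_le_succ hN
    exact ⟨max t t', (N _).inter s (hm (le_max_left _ _) hs) s' (hm (le_max_right _ _) hs')⟩
  union := by
    rintro s ⟨t, hs⟩ s' ⟨t', hs'⟩
    have hm : Monotone fun t => (N t).S := monotone_nat_of_le_succ hN
    exact ⟨max t t', (N _).union s (hm (le_max_left _ _) hs) s' (hm (le_max_right _ _) hs')⟩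
  proj := by
    rintro s ⟨t, hs⟩
    exact ⟨t, (N t).proj s hs⟩
  ball := by
    rintro s ⟨t, hs⟩
    exact ⟨t, (N t).ball s hs⟩

lemma le_sup (N : ℕ → SA) (hN : ∀ t, Le (N t) (N (t + 1))) (t : ℕ) : Le (N t) (sup N hN) :=
  fun _ hs => ⟨t, hs⟩

lemma le_of_le (N : ℕ → SA) (hN : ∀ t, Le (N t) (N (t + 1))) {t t' : ℕ} (h : t ≤ t') :
    Le (N t) (N t') := (monotone_nat_of_le_succ (f := fun t => (N t).S) hN) h

lemma ce_sup {N : ℕ → SA} {hN : ∀ t, Le (N t) (N (t + 1))} {p : α → Prop}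
    (hp : CE (sup N hN) p) : ∃ t, CE (N t) p := by
  obtain ⟨s, ⟨t, hs⟩, e⟩ := hp
  exact ⟨t, s, hs, e⟩

/-- `M` is countable, contains the partial function `D`, and no total relation of `M` avoids it -/
structure Nice (D : ℕ → Bool → Prop) (M : SA) : Prop where
  count : M.S.Countable
  ce : CE M fun x : ℕ × Bool => D x.1 x.2
  good : ∀ R : ℕ → Bool → Prop, CE M (fun x : ℕ × Bool => R x.1 x.2) → (∀ n, ∃ b, R n b) →
    ∃ n b, R n b ∧ D n b

variable {D : ℕ → Bool → Prop}

lemma nice_sup {N : ℕ → SA} (hN : ∀ t, Le (N t) (N (t + 1))) (h : ∀ t, Nice D (N t)) :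
    Nice D (sup N hN) := by
  refine ⟨?_, (h 0).ce.mono (le_sup N hN 0), fun R hR => ?_⟩
  · have : (sup N hN).S = ⋃ t, (N t).S := by ext s; simp [sup]
    rw [this]
    exact Set.countable_iUnion fun t => (h t).count
  · obtain ⟨t, ht⟩ := ce_sup hR
    exact (h t).good R ht

/-- monotone enumerable relations -/
def IsReq (M : SA) (R : List Bool → ℕ → Bool → Prop) : Prop :=
  CE M (fun x : List Bool × ℕ × Bool => R x.1 x.2.1 x.2.2) ∧
    ∀ l l' n b, l <+: l' → R l n b → R l' n b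

/-- the set `G` meets the requirement `R` -/
def Meets (D : ℕ → Bool → Prop) (G : ℕ → Bool) (R : List Bool → ℕ → Bool → Prop) : Prop :=
  (∃ u n b, R (pre G u) n b ∧ D n b) ∨ ∃ n, ∀ u b, ¬ R (pre G u) n b

lemma nice_adj (hM : Nice D M) {G : ℕ → Bool} (h : ∀ R, IsReq M R → Meets D G R) :
    Nice D (adj M G) := by
  refine ⟨countable_adj hM.count G, hM.ce.mono (le_adj M G), fun R hR htot => ?_⟩
  obtain ⟨O, ⟨S, h1, h2, h3⟩, e⟩ := sig_of_ce_adj hR
  rcases h (fun l n b => S (n, b) l) ⟨h1.comp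
      (f := fun x : List Bool × ℕ × Bool => ((x.2.1, x.2.2), x.1)) (by fun_prop),
      fun l l' n b => h2 _ l l'⟩ with ⟨u, n, b, h4, h5⟩ | ⟨n, hn⟩
  · exact ⟨n, b, (e (n, b)).2 ((h3 _ _).2 ⟨u, h4⟩), h5⟩
  · obtain ⟨b, hb⟩ := htot n
    obtain ⟨u, hu⟩ := (h3 _ _).1 ((e (n, b)).1 hb)
    exact absurd hu (hn u b)

lemma exists_enum_req (hM : M.S.Countable) : ∃ e : ℕ → List Bool → ℕ → Bool → Prop,
    (∀ k, IsReq M (e k)) ∧ ∀ R, IsReq M R → ∃ k, e k = R := by
  have h1 : {R | IsReq M R}.Countable := by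
    refine ((countable_ce (α := List Bool × ℕ × Bool) hM).image
      fun S => fun l n b => S (l, n, b)).mono ?_
    rintro R ⟨h, -⟩
    exact ⟨_, h, rfl⟩
  obtain ⟨e, he⟩ := h1.exists_eq_range ⟨fun _ _ _ => True, CE.const True, fun _ _ _ _ _ h => h⟩
  refine ⟨e, fun k => ?_, fun R hR => ?_⟩
  · have : e k ∈ {R | IsReq M R} := he ▸ ⟨k, rfl⟩
    exact this
  · have : R ∈ Set.range e := he ▸ hR
    exact this

lemma exists_chain {C : Sort _} (step : ℕ → C → C → Prop) (h : ∀ t c, ∃ c', step t c c')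
    (c0 : C) : ∃ s : ℕ → C, s 0 = c0 ∧ ∀ t, step t (s t) (s (t + 1)) := by
  choose F hF using h
  exact ⟨fun t => Nat.rec c0 (fun t c => F t c) t, rfl, fun t => hF t _⟩

end Pool.Agent.H362Z.PRT
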