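import Pool.Agent.H362Z.PRT.B

/-!
Largeness notions and large cohesive sets.
-/

set_option autoImplicit false

namespace Pool.Agent.H362Z.PRT

variable {M : SA} {α β : Type} [Primcodable α] [Primcodable β] {D : ℕ → Bool → Prop}

/-- partition regular largeness notions -/
structure LN (M : SA) (U : ℕ → (ℕ → Bool) → Prop) : Prop where
  sig : Sig M U
  mono : ∀ n X Y, (∀ x, n ≤ x → X x = true → Y x = true) → U n X → U n Y
  anti : ∀ m n X, m ≤ n → U n X → U m X
  part : ∀ n, ∃ m, ∀ X Y Z : ℕ → Bool, (∀ x, Z x = true → X x = true ∨ Y x = true) → U m Z →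
    U n X ∨ U n Y
  top : ∀ n, U n fun _ => true

/-- large sets -/
def Large (U : ℕ → (ℕ → Bool) → Prop) (X : ℕ → Bool) : Prop := ∀ n, U n X

variable {U : ℕ → (ℕ → Bool) → Prop}

lemma LN.large_part (hU : LN M U) {X Y Z : ℕ → Bool} (hZ : Large U Z)
    (h : ∀ x, Z x = true → X x = true ∨ Y x = true) : Large U X ∨ Large U Y := by
  by_contra hc
  simp only [Large, not_or, not_forall] at hc
  obtain ⟨⟨n, hn⟩, n', hn'⟩ := hc
  obtain ⟨m, hm⟩ := hU.part (max n n')
  rcases hm X Y Z h (hZ m) with h | h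
  · exact hn (hU.anti _ _ _ (le_max_left _ _) h)
  · exact hn' (hU.anti _ _ _ (le_max_right _ _) h)

lemma LN.large_mono (hU : LN M U) {X Y : ℕ → Bool} (hX : Large U X)
    (h : ∀ x, X x = true → Y x = true) : Large U Y :=
  fun n => hU.mono n X Y (fun x _ => h x) (hX n)

open Classical in
lemma LN.large_fin (hU : LN M U) {ι : Type} [Finite ι] (h : ℕ → ι) :
    ∃ j, Large U fun x => decide (h x = j) := by
  have key : ∀ S : Finset ι, (Large U fun x => decide (h x ∈ S)) →
      ∃ j, Large U fun x => decide (h x = j) := by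
    intro S
    induction S using Finset.induction_on with
    | empty => exact fun hS => ⟨h 0, hU.large_mono hS fun x hx => by simp at hx⟩
    | insert j S _ ih =>
      intro hS
      rcases hU.large_part (X := fun x => decide (h x = j)) (Y := fun x => decide (h x ∈ S)) hS
        (fun x hx => by simpa using hx) with h1 | h1
      · exact ⟨j, h1⟩
      · exact ih h1
  have := Fintype.ofFinite ι
  exact key Finset.univ fun n => hU.mono n _ _ (fun x _ _ => by simp) (hU.top n)

lemma LN.monoM (hU : LN M U) {N : SA} (h : Le M N) : LN N U :=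
  ⟨hU.sig.mono h, hU.mono, hU.anti, hU.part, hU.top⟩

lemma LN.rel (hU : LN M U) {C : ℕ → Bool} (hC : InM M C) (hL : Large U C) :
    LN M fun n X => U n fun x => X x && C x := by
  refine ⟨hU.sig.comap (ψ := fun _ x b => b && C x) (by fun_prop), fun n X Y h => ?_,
    fun m n X => hU.anti m n _, fun n => ?_, fun n => by simpa using hL n⟩
  · refine hU.mono n _ _ fun x hx => ?_
    simp only [Bool.and_eq_true]
    exact fun h' => ⟨h x hx h'.1, h'.2⟩
  · obtain ⟨m, hm⟩ := hU.part n
    refine ⟨m, fun X Y Z h => hm _ _ _ fun x => ?_⟩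
    simp only [Bool.and_eq_true]
    intro h'
    rcases h x h'.1 with h1 | h1
    · exact Or.inl ⟨h1, h'.2⟩
    · exact Or.inr ⟨h1, h'.2⟩

/-- the string `τ` extends `σ` by elements of `X` -/
def SExt (σ τ : List Bool) (X : ℕ → Prop) : Prop :=
  σ <+: τ ∧ ∀ x, σ.length ≤ x → τ.getD x false = true → X x

lemma getD_of_prefix {σ τ : List Bool} (h : σ <+: τ) {x : ℕ} (hx : x < σ.length) :
    τ.getD x false = σ.getD x false := by
  obtain ⟨t, rfl⟩ := h
  rw [List.getD_append _ _ _ _ hx]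

lemma lt_of_getD {τ : List Bool} {x : ℕ} (h : τ.getD x false = true) : x < τ.length := by
  by_contra hc
  rw [List.getD_eq_default _ _ (by omega)] at h
  cases h

lemma getD_mono {σ τ : List Bool} (h : σ <+: τ) {x : ℕ} (hx : σ.getD x false = true) :
    τ.getD x false = true := (getD_of_prefix h (lt_of_getD hx)).trans hx

lemma SExt.refl (σ : List Bool) (X : ℕ → Prop) : SExt σ σ X :=
  ⟨List.prefix_refl _, fun _ h1 h2 => absurd (lt_of_getD h2) (not_lt.2 h1)⟩

lemma SExt.mono {σ τ : List Bool} {X Y : ℕ → Prop} (h : SExt σ τ X) (e : ∀ x, X x → Y x) :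
    SExt σ τ Y := ⟨h.1, fun x h1 h2 => e x (h.2 x h1 h2)⟩

lemma SExt.trans {σ σ' τ : List Bool} {X Y : ℕ → Prop} (h : SExt σ σ' X) (h' : SExt σ' τ Y)
    (e : ∀ x, Y x → X x) : SExt σ τ X := by
  refine ⟨h.1.trans h'.1, fun x h1 h2 => ?_⟩
  by_cases hx : x < σ'.length
  · exact h.2 x h1 ((getD_of_prefix h'.1 hx).symm.trans h2)
  · exact e x (h'.2 x (not_lt.1 hx) h2)

lemma sExt_iff (σ τ : List Bool) (X : ℕ → Prop) : SExt σ τ X ↔
    τ.take σ.length = σ ∧ ∀ x < τ.length, (x < σ.length ∨ τ.getD x false = false) ∨ X x := by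
  refine and_congr (List.prefix_iff_eq_take.trans eq_comm) ⟨fun h x _ => ?_, fun h x h1 h2 => ?_⟩
  · by_cases h1 : x < σ.length
    · exact Or.inl (Or.inl h1)
    · cases h2 : τ.getD x false
      · exact Or.inl (Or.inr rfl)
      · exact Or.inr (h x (not_lt.1 h1) h2)
  · rcases h x (lt_of_getD h2) with (h3 | h3) | h3
    · omega
    · rw [h2] at h3; cases h3
    · exact h3

lemma ce_sExt {σ τ : α → List Bool} (hσ : InM M σ) (hτ : InM M τ) {p : α → ℕ → Prop}
    (hp : CE M fun x : α × ℕ => p x.1 x.2) : CE M fun a => SExt (σ a) (τ a) (p a) :=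
  ((CE.eq (by fun_prop) hσ).and (CE.ball
    (p := fun a x => (x < (σ a).length ∨ (τ a).getD x false = false) ∨ p a x) (by fun_prop)
    (((CE.lt (by fun_prop) (by fun_prop)).or (CE.eq (by fun_prop) (by fun_prop))).or hp))).of_iff
    fun a => (sExt_iff _ _ _).symm

lemma sig_sExt {σ τ : α → List Bool} (hσ : InM M σ) (hτ : InM M τ) {c : α → β} (hc : InM M c) :
    Sig M fun a (h : ℕ → β) => SExt (σ a) (τ a) fun x => h x = c a :=
  ((Sig.of_ce (CE.eq (by fun_prop) hσ)).and (Sig.ball
    (O := fun a x (h : ℕ → β) => (x < (σ a).length ∨ (τ a).getD x false = false) ∨ h x = c a)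
    (t := fun a => (τ a).length) (by fun_prop)
    ((Sig.of_ce ((CE.lt (by fun_prop) (by fun_prop)).or (CE.eq (by fun_prop) (by fun_prop)))).or
      (Sig.eval (p := fun (x : α × ℕ) (b : β) => b = c x.1) (CE.eq (by fun_prop) (by fun_prop))
        (t := fun x : α × ℕ => x.2) (by fun_prop))))).of_iff
    fun a h => (sExt_iff _ _ _).symm

lemma LN.grow (hU : LN M U) (σ : List Bool) (n : ℕ) {X : ℕ → Bool}
    (h : U (max n σ.length) X) : ∃ τ, SExt σ τ (fun x => X x = true) ∧
      U n (fun x => τ.getD x false) ∧ n ≤ τ.length := by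
  obtain ⟨u, hu⟩ := hU.sig.loc h
  let v := max u (max n σ.length)
  let g : ℕ → Bool := fun x => if x < σ.length then σ.getD x false else X x
  have h1 : U (max n σ.length) fun x => X x && decide (x < v) :=
    hu _ fun x hx => by
      have : x < v := lt_of_lt_of_le hx (le_max_left _ _)
      simp [this]
  refine ⟨pre g v, ⟨?_, fun x h1 h2 => ?_⟩, ?_, ?_⟩
  · have : pre g σ.length = σ := by
      conv_rhs => rw [← pre_getD_self σ false]
      exact pre_congr fun x hx => by simp only [g, if_pos hx]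
    conv_lhs => rw [← this]
    exact pre_prefix g (by omega)
  · have hx := lt_of_getD h2
    rw [length_pre] at hx
    rw [pre_getD g hx] at h2
    simpa only [g, if_neg (not_lt.2 h1)] using h2
  · refine hU.anti _ _ _ (le_max_left n σ.length) (hU.mono _ _ _ (fun x hx h2 => ?_) h1)
    simp only [Bool.and_eq_true, decide_eq_true_eq] at h2
    rw [pre_getD g h2.2]
    simp only [g]
    rw [if_neg (by omega)]
    exact h2.1
  · rw [length_pre]; omega

lemma exists_limit (σ : ℕ → List Bool) (h1 : ∀ t, σ t <+: σ (t + 1))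
    (h2 : ∀ t, t ≤ (σ (t + 1)).length) : ∃ G : ℕ → Bool,
      (∀ t x, x < (σ t).length → G x = (σ t).getD x false) ∧
      (∀ t, pre G (σ t).length = σ t) ∧ ∀ u t, u < t → pre G u <+: σ t := by
  have hm : ∀ t t', t ≤ t' → σ t <+: σ t' := by
    intro t t' h
    induction h with
    | refl => exact List.prefix_refl _
    | step _ ih => exact ih.trans (h1 _)
  have ha : ∀ t x, x < (σ t).length → (σ (x + 2)).getD x false = (σ t).getD x false := by
    intro t x hx
    rcases le_total t (x + 2) with h | h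
    · exact getD_of_prefix (hm _ _ h) hx
    · exact (getD_of_prefix (hm _ _ h) (h2 (x + 1))).symm
  have hb : ∀ t, pre (fun x => (σ (x + 2)).getD x false) (σ t).length = σ t := by
    intro t
    conv_rhs => rw [← pre_getD_self (σ t) false]
    exact pre_congr (ha t)
  refine ⟨fun x => (σ (x + 2)).getD x false, ha, hb, fun u t hu => ?_⟩
  refine List.IsPrefix.trans ?_ (hm (u + 1) t hu)
  conv_rhs => rw [← hb (u + 1)]
  exact pre_prefix _ (h2 u)

lemma exists_enum_inM [Inhabited β] (hM : M.S.Countable) :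
    ∃ r : ℕ → α → β, (∀ k, InM M (r k)) ∧ ∀ f, InM M f → ∃ k, r k = f := by
  have h1 : {f : α → β | InM M f}.Countable := by
    refine Set.MapsTo.countable_of_injOn (f := fun (f : α → β) (x : α × β) => f x.1 = x.2)
      (fun f hf => hf) (fun f _ g _ e => funext fun a => ?_) (countable_ce hM)
    exact (congrFun e (a, g a)).mpr rfl
  obtain ⟨e, he⟩ := h1.exists_eq_range ⟨fun _ => default, InM.const _⟩
  refine ⟨e, fun k => ?_, fun R hR => ?_⟩
  · have : e k ∈ {f : α → β | InM M f} := he ▸ ⟨k, rfl⟩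
    exact this
  · have : R ∈ Set.range e := he ▸ hR
    exact this

theorem coh (hM : Nice D M) (hU : LN M U) : ∃ G : ℕ → Bool, Nice D (adj M G) ∧ Large U G ∧
    ∀ R : ℕ → Bool, InM M R → ∃ b N, ∀ x, N ≤ x → G x = true → R x = b := by
  obtain ⟨e, he, he'⟩ := exists_enum_req hM.count
  obtain ⟨r, hr, hr'⟩ := exists_enum_inM (α := ℕ) (β := Bool) hM.count
  let C := {c : List Bool × (ℕ → Bool) // InM M c.2 ∧ Large U c.2}
  let step : ℕ → C → C → Prop := fun t c c' =>
    SExt c.1.1 c'.1.1 (fun x => c.1.2 x = true) ∧ (∀ x, c'.1.2 x = true → c.1.2 x = true) ∧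
    U t (fun x => c'.1.1.getD x false) ∧ t ≤ c'.1.1.length ∧
    (∃ b, ∀ x, c'.1.2 x = true → r t x = b) ∧
    ((∃ n b, e t c'.1.1 n b ∧ D n b) ∨
      ∃ n, ∀ τ b, SExt c'.1.1 τ (fun x => c'.1.2 x = true) → ¬ e t τ n b)
  have hstep : ∀ t c, ∃ c', step t c c' := by
    rintro t ⟨⟨σ, X⟩, hX, hL⟩
    dsimp only at hX hL
    obtain ⟨σ1, h1, h2, h3⟩ := hU.grow σ t (hL _)
    have hsplit : ∃ b, Large U fun x => X x && decide (r t x = b) := by
      rcases hU.large_part (X := fun x => X x && decide (r t x = true))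
        (Y := fun x => X x && decide (r t x = false)) hL
        (fun x hx => by cases r t x <;> simp [hx]) with h | h
      · exact ⟨_, h⟩
      · exact ⟨_, h⟩
    obtain ⟨b0, hb0⟩ := hsplit
    have hX' : InM M fun x => X x && decide (r t x = b0) :=
      hX.band (Dec.eq (hr t) (InM.const _)).inM
    have hsub : ∀ x, (X x && decide (r t x = b0)) = true → X x = true := fun x hx => by
      simp only [Bool.and_eq_true] at hx; exact hx.1
    have hr0 : ∀ x, (X x && decide (r t x = b0)) = true → r t x = b0 := fun x hx => by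
      simp only [Bool.and_eq_true, decide_eq_true_eq] at hx; exact hx.2
    by_cases hq : ∀ n, ∃ b, ∃ τ, SExt σ1 τ (fun x => X x = true) ∧ e t τ n b
    · obtain ⟨n, b, ⟨τ, h4, h5⟩, h6⟩ := hM.good _ (CE.ex
        (p := fun (x : ℕ × Bool) τ => SExt σ1 τ (fun x => X x = true) ∧ e t τ x.1 x.2)
        ((ce_sExt (p := fun _ x => X x = true) (by fun_prop) (by fun_prop)
          (CE.eq (by fun_prop) (by fun_prop))).and
          ((he t).1.comp (f := fun x : (ℕ × Bool) × List Bool => (x.2, x.1.1, x.1.2))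
            (by fun_prop)))) hq
      exact ⟨⟨(τ, _), hX', hb0⟩, h1.trans h4 fun _ h => h, hsub,
        hU.mono _ _ _ (fun x _ hx => getD_mono h4.1 hx) h2, h3.trans h4.1.length_le,
        ⟨b0, hr0⟩, Or.inl ⟨n, b, h5, h6⟩⟩
    · push Not at hq
      obtain ⟨n, hn⟩ := hq
      exact ⟨⟨(σ1, _), hX', hb0⟩, h1, hsub, h2, h3, ⟨b0, hr0⟩,
        Or.inr ⟨n, fun τ b hτ => hn b τ (hτ.mono hsub)⟩⟩
  obtain ⟨s, -, hs⟩ := exists_chain step hstep ⟨([], fun _ => true), InM.const _, hU.top⟩
  obtain ⟨G, hG1, hG2, hG3⟩ := exists_limit (fun t => (s t).1.1) (fun t => (hs t).1.1)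
    (fun t => (hs t).2.2.2.1)
  have hm : ∀ t t', t ≤ t' → SExt (s t).1.1 (s t').1.1 (fun x => (s t).1.2 x = true) ∧
      ∀ x, (s t').1.2 x = true → (s t).1.2 x = true := by
    intro t t' h
    induction h with
    | refl => exact ⟨SExt.refl _ _, fun _ h => h⟩
    | step _ ih => exact ⟨ih.1.trans (hs _).1 ih.2, fun x hx => ih.2 x ((hs _).2.1 x hx)⟩
  refine ⟨G, nice_adj hM fun R hR => ?_, fun n => ?_, fun R hR => ?_⟩
  · obtain ⟨t, rfl⟩ := he' R hR
    rcases (hs t).2.2.2.2.2 with ⟨n, b, h1, h2⟩ | ⟨n, hn⟩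
    · exact Or.inl ⟨_, n, b, (hG2 (t + 1)).symm ▸ h1, h2⟩
    · refine Or.inr ⟨n, fun u b h => ?_⟩
      exact hn _ b (hm (t + 1) (max (t + 1) (u + 1)) (le_max_left _ _)).1
        (hR.2 _ _ _ _ (hG3 u _ (by omega)) h)
  · refine hU.mono _ _ _ (fun x _ hx => ?_) (hs n).2.2.1
    exact (hG1 (n + 1) x (lt_of_getD hx)).trans hx
  · obtain ⟨t, rfl⟩ := hr' R hR
    obtain ⟨b, hb⟩ := (hs t).2.2.2.2.1
    refine ⟨b, (s (t + 1)).1.1.length, fun x hx hGx => hb x ?_⟩
    refine (hm (t + 1) (max (t + 1) (x + 2)) (le_max_left _ _)).1.2 x hx ?_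
    refine getD_mono (hG3 (x + 1) _ (by omega)) ?_
    rw [pre_getD G (Nat.lt_succ_self x)]
    exact hGx

end Pool.Agent.H362Z.PRT
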