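import Pool.Agent.H362Z.PRT.C

/-!
The forcing of Liu with a largeness notion.
-/

set_option autoImplicit false

namespace Pool.Agent.H362Z.PRT

variable {M : SA} {D : ℕ → Bool → Prop} {U : ℕ → (ℕ → Bool) → Prop} {A : ℕ → Bool}

lemma konig {α : ℕ → Type} [∀ t, Finite (α t)] (L : ∀ t, α t → Prop) (hne : ∀ t, ∃ a, L t a)
    (π : ∀ t, α (t + 1) → α t) (hπ : ∀ t a, L (t + 1) a → L t (π t a)) :
    ∃ f : ∀ t, α t, ∀ t, L t (f t) ∧ π t (f (t + 1)) = f t := by
  let E : ℕ → ∀ t, α t → Prop := fun k =>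
    Nat.rec (fun t a => L t a) (fun _ ih t a => ∃ b, π t b = a ∧ ih (t + 1) b) k
  have hE0 : ∀ t a, E 0 t a ↔ L t a := fun _ _ => Iff.rfl
  have hES : ∀ k t a, E (k + 1) t a ↔ ∃ b, π t b = a ∧ E k (t + 1) b := fun _ _ _ => Iff.rfl
  have h1 : ∀ k t, ∃ a, E k t a := by
    intro k
    induction k with
    | zero => exact hne
    | succ k ih =>
      intro t
      obtain ⟨b, hb⟩ := ih (t + 1)
      exact ⟨π t b, b, rfl, hb⟩
  have h2 : ∀ k t a, E (k + 1) t a → E k t a := by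
    intro k
    induction k with
    | zero =>
      rintro t a ⟨b, rfl, hb⟩
      exact hπ t b hb
    | succ k ih =>
      rintro t a ⟨b, rfl, hb⟩
      exact ⟨b, rfl, ih _ _ hb⟩
  have h3 : ∀ k k' t a, k ≤ k' → E k' t a → E k t a := by
    intro k k' t a h
    induction h with
    | refl => exact id
    | step _ ih => exact fun h => ih (h2 _ _ _ h)
  have h4 : ∀ t (Q : α t → Prop), (∀ k, ∃ a, Q a ∧ E k t a) → ∃ a, Q a ∧ ∀ k, E k t a := by
    intro t Q h
    choose a ha using h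
    obtain ⟨b, hb⟩ := Finite.exists_infinite_fiber a
    have hb' : (a ⁻¹' {b}).Infinite := Set.infinite_coe_iff.1 hb
    refine ⟨b, ?_, fun k => ?_⟩
    · obtain ⟨k, hk⟩ := hb'.nonempty
      exact (show a k = b from hk) ▸ (ha k).1
    · obtain ⟨k', hk', hk⟩ := hb'.exists_gt k
      exact h3 k k' t b hk.le ((show a k' = b from hk') ▸ (ha k').2)
  obtain ⟨a0, -, ha0⟩ := h4 0 (fun _ => True) fun k => (h1 k 0).imp fun _ h => ⟨trivial, h⟩
  have h5 : ∀ t (a : {a : α t // ∀ k, E k t a}), ∃ b : {a : α (t + 1) // ∀ k, E k (t + 1) a},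
      π t b.1 = a.1 := by
    intro t a
    obtain ⟨b, hb, hb'⟩ := h4 (t + 1) (fun b => π t b = a.1) fun k => (hES k t a.1).1 (a.2 (k + 1))
    exact ⟨⟨b, hb'⟩, hb⟩
  choose F hF using h5
  let f : ∀ t, {a : α t // ∀ k, E k t a} := fun t => Nat.rec ⟨a0, ha0⟩ (fun t a => F t a) t
  exact ⟨fun t => (f t).1, fun t => ⟨(f t).2 0, hF t _⟩⟩

lemma valuation (hM : Nice D M) {W : List (ℕ × Bool) → Prop} (hW : CE M W)
    (hup : ∀ p q, (∀ x ∈ p, x ∈ q) → W p → W q) :
    (∃ p, (∀ x ∈ p, D x.1 x.2) ∧ W p) ∨ ∃ p : ℕ → List (ℕ × Bool), (∀ j, ¬ W (p j)) ∧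
      ∀ j j', j < j' → ∃ n, (n, false) ∈ p j ∧ (n, true) ∈ p j' := by
  by_cases h0 : ∃ p, (∀ x ∈ p, D x.1 x.2) ∧ W p
  · exact Or.inl h0
  right
  let bad : List (ℕ × Bool) → Prop := fun q => ∃ r, (∀ x ∈ r, D x.1 x.2) ∧ W (q ++ r)
  have hbad : CE M bad := CE.ex (p := fun q r => (∀ x ∈ r, D x.1 x.2) ∧ W (q ++ r))
    ((CE.allMem (p := fun _ (x : ℕ × Bool) => D x.1 x.2) (by fun_prop)
      (hM.ce.comp (f := fun x : (List (ℕ × Bool) × List (ℕ × Bool)) × ℕ × Bool => x.2)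
        (by fun_prop))).and (hW.comp (by fun_prop)))
  have hsplit : ∀ q : {q // ¬ bad q}, ∃ n, ∀ b, ¬ bad ((n, b) :: q.1) := by
    rintro ⟨q, hq⟩
    by_contra hc
    push Not at hc
    obtain ⟨n, b, ⟨r, h1, h2⟩, h3⟩ := hM.good (fun n b => bad ((n, b) :: q))
      (hbad.comp (f := fun x : ℕ × Bool => (x.1, x.2) :: q) (by fun_prop)) hc
    refine hq ⟨(n, b) :: r, ?_, hup _ _ ?_ h2⟩
    · intro x hx
      rcases List.mem_cons.1 hx with rfl | hx
      · exact h3
      · exact h1 x hx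
    · intro x hx
      simp only [List.cons_append, List.mem_cons, List.mem_append] at hx ⊢
      tauto
  choose N hN using hsplit
  let q : ℕ → {q // ¬ bad q} := fun t =>
    Nat.rec ⟨[], fun ⟨r, h1, h2⟩ => h0 ⟨r, h1, h2⟩⟩ (fun _ q => ⟨(N q, true) :: q.1, hN q true⟩) t
  have hq : ∀ t, (q (t + 1)).1 = (N (q t), true) :: (q t).1 := fun _ => rfl
  refine ⟨fun j => (N (q j), false) :: (q j).1, fun j h => hN (q j) false ⟨[], by simp, by simpa⟩,
    fun j j' h => ⟨N (q j), by simp, List.mem_cons_of_mem _ ?_⟩⟩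
  induction h with
  | refl => rw [hq]; simp
  | step _ ih => rw [hq]; exact List.mem_cons_of_mem _ ih

/-- forcing conditions -/
structure Cond (M : SA) (A : ℕ → Bool) where
  α : Type
  [pc : Primcodable α]
  [fin : Finite α]
  [inh : Inhabited α]
  P : (ℕ → α) → Prop
  sig : Sig M fun (_ : Unit) h => ¬ P h
  ne : ∃ h, P h
  σ : α → Bool → List Bool
  inA : ∀ s i x, (σ s i).getD x false = true → A x = i

attribute [instance] Cond.pc Cond.fin Cond.inh

/-- extension of conditions -/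
def Ext (c c' : Cond M A) (π : c'.α → c.α) : Prop :=
  ∀ h', c'.P h' → ∀ a, ∃ h, c.P h ∧ (∀ x, h' x = a → h x = π a) ∧
    ∀ i, SExt (c.σ (π a) i) (c'.σ a i) fun x => h x = π a

lemma Ext.refl (c : Cond M A) : Ext c c id :=
  fun h hh _ => ⟨h, hh, fun _ e => e, fun _ => SExt.refl _ _⟩

lemma Ext.trans {c c' c'' : Cond M A} {π : c'.α → c.α} {π' : c''.α → c'.α} (h : Ext c c' π)
    (h' : Ext c' c'' π') : Ext c c'' (π ∘ π') := by
  intro g'' hg'' a
  obtain ⟨g', h1, h2, h3⟩ := h' g'' hg'' a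
  obtain ⟨g, h4, h5, h6⟩ := h g' h1 (π' a)
  exact ⟨g, h4, fun x hx => h5 x (h2 x hx), fun i => (h6 i).trans (h3 i) h5⟩

lemma Ext.pref {c c' : Cond M A} {π : c'.α → c.α} (h : Ext c c' π) (a : c'.α) (i : Bool) :
    c.σ (π a) i <+: c'.σ a i := by
  obtain ⟨g', hg'⟩ := c'.ne
  obtain ⟨g, -, -, h3⟩ := h g' hg' a
  exact (h3 i).1

open Classical in
/-- a side of a part is dead -/
def Dead (U : ℕ → (ℕ → Bool) → Prop) (c : Cond M A) (s : c.α) (i : Bool) : Prop :=
  ∃ n, ∀ h, c.P h → ¬ U n fun x => decide (h x = s ∧ A x = i)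

/-- a side of a part forces a requirement -/
def Sat (D : ℕ → Bool → Prop) (c : Cond M A) (s : c.α) (i : Bool)
    (R : List Bool → ℕ → Bool → Prop) : Prop :=
  (∃ n b, R (c.σ s i) n b ∧ D n b) ∨
    ∃ n, ∀ h, c.P h → ∀ τ b, SExt (c.σ s i) τ (fun x => h x = s) → ¬ R τ n b

lemma Dead.ext (hU : LN M U) {c c' : Cond M A} {π : c'.α → c.α} (h : Ext c c' π) {a : c'.α}
    {i : Bool} (hd : Dead U c (π a) i) : Dead U c' a i := by
  obtain ⟨n, hn⟩ := hd
  refine ⟨n, fun g' hg' hu => ?_⟩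
  obtain ⟨g, h1, h2, -⟩ := h g' hg' a
  refine hn g h1 (hU.mono n _ _ (fun x _ hx => ?_) hu)
  simp only [decide_eq_true_eq] at hx ⊢
  exact ⟨h2 x hx.1, hx.2⟩

lemma Sat.ext {c c' : Cond M A} {π : c'.α → c.α} (h : Ext c c' π) {a : c'.α} {i : Bool}
    {R : List Bool → ℕ → Bool → Prop} (hR : IsReq M R) (hs : Sat D c (π a) i R) :
    Sat D c' a i R := by
  rcases hs with ⟨n, b, h1, h2⟩ | ⟨n, hn⟩
  · exact Or.inl ⟨n, b, hR.2 _ _ _ _ (h.pref a i) h1, h2⟩
  · refine Or.inr ⟨n, fun g' hg' τ b hτ => ?_⟩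
    obtain ⟨g, h1, h2, h3⟩ := h g' hg' a
    exact hn g h1 τ b ((h3 i).trans hτ h2)

lemma exists_alive (hU : LN M U) (c : Cond M A) : ∃ s, ¬ ∀ i, Dead U c s i := by
  obtain ⟨h, hh⟩ := c.ne
  obtain ⟨⟨s, i⟩, hs⟩ := hU.large_fin fun x => (h x, A x)
  refine ⟨s, fun hd => ?_⟩
  obtain ⟨n, hn⟩ := hd i
  refine hn h hh (hU.mono n _ _ (fun x _ hx => ?_) (hs n))
  simpa using hx

open Classical in
/-- extension of one stem -/
noncomputable def Cond.upd (c : Cond M A) (s : c.α) (i : Bool) (h : ℕ → c.α) (hh : c.P h)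
    (τ : List Bool) (hτ : SExt (c.σ s i) τ fun x => h x = s ∧ A x = i) : Cond M A where
  α := c.α
  P h' := c.P h' ∧ ∀ x < τ.length, h' x = h x
  sig := by
    have h1 : Sig M fun (_ : Unit) (h' : ℕ → c.α) => ¬ c.P h' ∨
        ∃ x, x < τ.length ∧ h' x ≠ (pre h τ.length).getD x default :=
      c.sig.or (Sig.ex (O := fun (_ : Unit) x (h' : ℕ → c.α) =>
        x < τ.length ∧ h' x ≠ (pre h τ.length).getD x default)
        (Sig.eval (p := fun (x : Unit × ℕ) (b : c.α) =>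
          x.2 < τ.length ∧ b ≠ (pre h τ.length).getD x.2 default)
          ((CE.lt (by fun_prop) (by fun_prop)).and (CE.ne (by fun_prop) (by fun_prop)))
          (t := fun x : Unit × ℕ => x.2) (by fun_prop)))
    refine h1.of_iff fun _ h' => ?_
    rw [not_and_or, not_forall]
    refine or_congr Iff.rfl (exists_congr fun x => ?_)
    by_cases hx : x < τ.length
    · rw [pre_getD h hx]; simp [hx]
    · simp [hx]
  ne := ⟨h, hh, fun _ _ => rfl⟩
  σ s' i' := if s' = s ∧ i' = i then τ else c.σ s' i'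
  inA s' i' x hx := by
    split_ifs at hx with e
    · obtain ⟨rfl, rfl⟩ := e
      by_cases h1 : x < (c.σ s' i').length
      · exact c.inA s' i' x ((getD_of_prefix hτ.1 h1).symm.trans hx)
      · exact (hτ.2 x (not_lt.1 h1) hx).2
    · exact c.inA s' i' x hx

lemma Cond.upd_σ (c : Cond M A) (s : c.α) (i : Bool) (h : ℕ → c.α) (hh : c.P h)
    (τ : List Bool) (hτ : SExt (c.σ s i) τ fun x => h x = s ∧ A x = i) :
    (c.upd s i h hh τ hτ).σ s i = τ := by
  simp [Cond.upd]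

lemma Cond.ext_upd (c : Cond M A) (s : c.α) (i : Bool) (h : ℕ → c.α) (hh : c.P h)
    (τ : List Bool) (hτ : SExt (c.σ s i) τ fun x => h x = s ∧ A x = i) :
    Ext c (c.upd s i h hh τ hτ) id := by
  intro g hg a
  refine ⟨g, hg.1, fun _ e => e, fun i' => ?_⟩
  have key : ∀ (g : ℕ → c.α) (a : c.α), (∀ x < τ.length, g x = h x) →
      SExt (c.σ a i') ((c.upd s i h hh τ hτ).σ a i') fun x => g x = a := by
    intro g a hg
    by_cases e : a = s ∧ i' = i
    · have h0 : (c.upd s i h hh τ hτ).σ a i' = τ := if_pos e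
      rw [h0, e.1, e.2]
      exact ⟨hτ.1, fun x h1 h2 => (hg x (lt_of_getD h2)).trans (hτ.2 x h1 h2).1⟩
    · have : (c.upd s i h hh τ hτ).σ a i' = c.σ a i' := if_neg e
      rw [this]
      exact SExt.refl _ _
  exact key g a hg.2

lemma loop (I : ∀ c : Cond M A, (c.α → Bool → Prop) → Prop)
    (Q : ∀ c : Cond M A, (c.α → Bool → Prop) → c.α → Bool → Prop)
    (hI : ∀ c c' π mk, Ext c c' π → I c mk → I c' fun a => mk (π a))
    (hQ : ∀ c c' π mk a i, Ext c c' π → Q c mk (π a) i → Q c' (fun a => mk (π a)) a i)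
    (hstep : ∀ c mk, I c mk → (∃ c' π, Ext c c' π ∧ ∀ a i, Q c' (fun a => mk (π a)) a i) ∨
      ∃ c' π, Ext c c' π ∧ Function.Injective π ∧
        ∃ a i, ¬ Q c mk (π a) i ∧ Q c' (fun a => mk (π a)) a i) :
    ∀ c mk, I c mk → ∃ c' π, Ext c c' π ∧ ∀ a i, Q c' (fun a => mk (π a)) a i := by
  have key : ∀ N c mk, I c mk → {x : c.α × Bool | ¬ Q c mk x.1 x.2}.ncard < N →
      ∃ c' π, Ext c c' π ∧ ∀ a i, Q c' (fun a => mk (π a)) a i := by
    intro N
    induction N with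
    | zero => intro c mk _ h; omega
    | succ N ih =>
      intro c mk hi hN
      rcases hstep c mk hi with h | ⟨c', π, h1, h2, a, i, h3, h4⟩
      · exact h
      · have hlt : {x : c'.α × Bool | ¬ Q c' (fun a => mk (π a)) x.1 x.2}.ncard <
            {x : c.α × Bool | ¬ Q c mk x.1 x.2}.ncard := by
          have hinj : Function.Injective fun x : c'.α × Bool => (π x.1, x.2) := by
            rintro ⟨x, y⟩ ⟨x', y'⟩ e
            simp only [Prod.mk.injEq] at e
            rw [h2 e.1, e.2]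
          rw [← Set.ncard_image_of_injective _ hinj]
          refine Set.ncard_lt_ncard ⟨?_, fun hs => ?_⟩
          · rintro _ ⟨x, hx, rfl⟩ hq
            exact hx (hQ _ _ _ _ _ _ h1 hq)
          · obtain ⟨x, hx, e⟩ := hs (show (π a, i) ∈ _ from h3)
            have : x = (a, i) := hinj e
            subst this
            exact hx h4
        obtain ⟨c'', π', h5, h6⟩ := ih c' _ (hI _ _ _ _ h1 hi) (by omega)
        exact ⟨c'', π ∘ π', h1.trans h5, h6⟩
  exact fun c mk hi => key _ c mk hi (Nat.lt_succ_self _)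

lemma step_large (hU : LN M U) (n : ℕ) (c : Cond M A) : ∃ c' π, Ext c c' π ∧ ∀ a i,
    Dead U c' a i ∨ (U n (fun x => (c'.σ a i).getD x false) ∧ n ≤ (c'.σ a i).length) := by
  classical
  refine loop (fun _ _ => True) (fun c _ a i => Dead U c a i ∨
    (U n (fun x => (c.σ a i).getD x false) ∧ n ≤ (c.σ a i).length)) (fun _ _ _ _ _ _ => trivial)
    ?_ ?_ c (fun _ _ => True) trivial
  · rintro c c' π - a i h (h1 | ⟨h1, h2⟩)
    · exact Or.inl (h1.ext hU h)
    · exact Or.inr ⟨hU.mono _ _ _ (fun x _ hx => getD_mono (h.pref a i) hx) h1,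
        h2.trans (h.pref a i).length_le⟩
  · rintro c - -
    by_cases hall : ∀ a i, Dead U c a i ∨
      (U n (fun x => (c.σ a i).getD x false) ∧ n ≤ (c.σ a i).length)
    · exact Or.inl ⟨c, id, Ext.refl c, hall⟩
    · right
      simp only [not_forall] at hall
      obtain ⟨s, i, hs⟩ := hall
      have hnd : ¬ Dead U c s i := fun h => hs (Or.inl h)
      simp only [Dead, not_exists, not_forall, not_not] at hnd
      obtain ⟨h, hh, hu⟩ := hnd (max n (c.σ s i).length)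
      obtain ⟨τ, h1, h2, h3⟩ := hU.grow (c.σ s i) n hu
      have hτ : SExt (c.σ s i) τ fun x => h x = s ∧ A x = i := h1.mono fun x hx => by simpa using hx
      refine ⟨c.upd s i h hh τ hτ, id, c.ext_upd _ _ _ _ _ _, Function.injective_id, s, i, hs,
        Or.inr ?_⟩
      rw [Cond.upd_σ]
      exact ⟨h2, h3⟩

end Pool.Agent.H362Z.PRT
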