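import Pool.Agent.H362Z.PRT.D

/-!
Large subsets of one side of an arbitrary partition.
-/

set_option autoImplicit false

namespace Pool.Agent.H362Z.PRT

variable {M : SA} {D : ℕ → Bool → Prop} {U : ℕ → (ℕ → Bool) → Prop} {A : ℕ → Bool}

/-- the property reached by a requirement step -/
def QR (D : ℕ → Bool → Prop) (U : ℕ → (ℕ → Bool) → Prop) (R : Bool → List Bool → ℕ → Bool → Prop)
    (c : Cond M A) (mk : c.α → Bool → Prop) (s : c.α) : Prop :=
  (∃ i, ¬ mk s i ∧ Sat D c s i (R i)) ∨ ∀ i, Dead U c s i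

lemma QR.ext (hU : LN M U) {R : Bool → List Bool → ℕ → Bool → Prop} (hR : ∀ i, IsReq M (R i))
    {c c' : Cond M A} {π : c'.α → c.α} (h : Ext c c' π) {mk : c.α → Bool → Prop} {a : c'.α}
    (hq : QR D U R c mk (π a)) : QR D U R c' (fun a => mk (π a)) a := by
  rcases hq with ⟨i, h1, h2⟩ | h1
  · exact Or.inl ⟨i, h1, h2.ext h (hR i)⟩
  · exact Or.inr fun i => (h1 i).ext hU h

open Classical in
/-- the forcing question -/
def Qu (U : ℕ → (ℕ → Bool) → Prop) (R : Bool → List Bool → ℕ → Bool → Prop) (c : Cond M A)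
    (mk : c.α → Bool → Prop) (q : c.α → Prop) (n : ℕ) (p : List (ℕ × Bool))
    (h : ℕ → c.α × Bool) : Prop :=
  (¬ c.P fun x => (h x).1) ∨ (∃ y : c.α × Bool, mk y.1 y.2 ∧ U n fun x => decide (h x = y)) ∨
    ∃ y : c.α × Bool, ∃ τ, ((¬ q y.1 ∧ ¬ mk y.1 y.2) ∧ ∃ z, z ∈ p ∧ R y.2 τ z.1 z.2) ∧
      SExt (c.σ y.1 y.2) τ fun x => h x = y

lemma sig_Qu (hU : LN M U) {R : Bool → List Bool → ℕ → Bool → Prop} (hR : ∀ i, IsReq M (R i))
    (c : Cond M A) (mk : c.α → Bool → Prop) (q : c.α → Prop) (n : ℕ) :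
    Sig M (Qu U R c mk q n) := by
  classical
  have hR' : CE M fun x : Bool × List Bool × ℕ × Bool => R x.1 x.2.1 x.2.2.1 x.2.2.2 := by
    have h1 : CE M fun x : Bool × List Bool × ℕ × Bool =>
        (x.1 = true ∧ R true x.2.1 x.2.2.1 x.2.2.2) ∨
          (x.1 = false ∧ R false x.2.1 x.2.2.1 x.2.2.2) :=
      ((CE.eq (by fun_prop) (by fun_prop)).and ((hR true).1.comp
        (f := fun x : Bool × List Bool × ℕ × Bool => x.2) (by fun_prop))).or
      ((CE.eq (by fun_prop) (by fun_prop)).and ((hR false).1.comp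
        (f := fun x : Bool × List Bool × ℕ × Bool => x.2) (by fun_prop)))
    refine h1.of_iff fun x => ?_
    obtain ⟨b, x⟩ := x
    cases b <;> simp
  unfold Qu
  refine Sig.or ?_ (Sig.or ?_ ?_)
  · exact (c.sig.comap (β := c.α × Bool) (ψ := fun _ _ y => y.1) (by fun_prop)).comp
      (k := fun _ : List (ℕ × Bool) => ()) (by fun_prop)
  · refine Sig.ex (O := fun (_ : List (ℕ × Bool)) (y : c.α × Bool) (h : ℕ → c.α × Bool) =>
      mk y.1 y.2 ∧ U n fun x => decide (h x = y)) ?_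
    refine (Sig.of_ce (CE.fin (fun y : c.α × Bool => mk y.1 y.2)
      (f := fun x : List (ℕ × Bool) × (c.α × Bool) => x.2) (by fun_prop))).and ?_
    exact (hU.sig.comp (k := fun _ : List (ℕ × Bool) × (c.α × Bool) => n) (by fun_prop)).comap
      (β := c.α × Bool) (ψ := fun a _ y => decide (y = a.2))
      (Dec.eq (by fun_prop) (by fun_prop)).inM
  · refine Sig.ex (O := fun (p : List (ℕ × Bool)) (y : c.α × Bool) (h : ℕ → c.α × Bool) =>
      ∃ τ, ((¬ q y.1 ∧ ¬ mk y.1 y.2) ∧ ∃ z, z ∈ p ∧ R y.2 τ z.1 z.2) ∧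
        SExt (c.σ y.1 y.2) τ fun x => h x = y) ?_
    refine Sig.ex (O := fun (w : List (ℕ × Bool) × (c.α × Bool)) τ (h : ℕ → c.α × Bool) =>
      ((¬ q w.2.1 ∧ ¬ mk w.2.1 w.2.2) ∧ ∃ z, z ∈ w.1 ∧ R w.2.2 τ z.1 z.2) ∧
        SExt (c.σ w.2.1 w.2.2) τ fun x => h x = w.2) ?_
    refine (Sig.of_ce (CE.and ?_ ?_)).and ?_
    · exact CE.fin (fun y : c.α × Bool => ¬ q y.1 ∧ ¬ mk y.1 y.2)
        (f := fun x : (List (ℕ × Bool) × (c.α × Bool)) × List Bool => x.1.2) (by fun_prop)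
    · exact CE.ex (p := fun (x : (List (ℕ × Bool) × (c.α × Bool)) × List Bool) (z : ℕ × Bool) =>
        z ∈ x.1.1 ∧ R x.1.2.2 x.2 z.1 z.2) ((CE.mem (by fun_prop) (by fun_prop)).and
        (hR'.comp (f := fun x : ((List (ℕ × Bool) × (c.α × Bool)) × List Bool) × (ℕ × Bool) =>
          (x.1.1.2.2, x.1.2, x.2.1, x.2.2)) (by fun_prop)))
    · exact sig_sExt (InM.fin (fun y : c.α × Bool => c.σ y.1 y.2)
        (f := fun x : (List (ℕ × Bool) × (c.α × Bool)) × List Bool => x.1.2) (by fun_prop))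
        (by fun_prop) (by fun_prop)

/-- the product condition -/
def Cond.prod (c : Cond M A) (k : ℕ) (O : Fin k → (ℕ → c.α × Bool) → Prop) (hO : Sig M O)
    (hne : ∀ j, ∃ h, ¬ O j h) (J : (Fin k → c.α × Bool) → Fin k) : Cond M A where
  α := Fin k → c.α × Bool
  P h := ∀ j, ¬ O j fun x => h x j
  sig := by
    have h1 : Sig M fun (j : Fin k) (h : ℕ → Fin k → c.α × Bool) => O j fun x => h x j :=
      hO.comap (β := Fin k → c.α × Bool) (ψ := fun j _ a => a j)
        (InM.fin (fun y : Fin k × (Fin k → c.α × Bool) => y.2 y.1)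
          (f := fun x : (Fin k × ℕ) × (Fin k → c.α × Bool) => (x.1.1, x.2)) (by fun_prop))
    have h2 := Sig.ex (O := fun (_ : Unit) (j : Fin k) (h : ℕ → Fin k → c.α × Bool) =>
      O j fun x => h x j) (h1.comp (k := fun x : Unit × Fin k => x.2) (by fun_prop))
    exact h2.of_iff fun _ h => by simp
  ne := by
    choose g hg using hne
    exact ⟨fun x j => g j x, hg⟩
  σ a i := c.σ (a (J a)).1 i
  inA a i := c.inA _ i

lemma step_req (hM : Nice D M) (hU : LN M U) {R : Bool → List Bool → ℕ → Bool → Prop}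
    (hR : ∀ i, IsReq M (R i)) (c : Cond M A) : ∃ c' π, Ext c c' π ∧ ∀ a,
      (∃ i, ¬ Dead U c (π a) i ∧ Sat D c' a i (R i)) ∨ ∀ i, Dead U c' a i := by
  classical
  suffices H : ∃ c' π, Ext c c' π ∧ ∀ a (_ : Bool), QR D U R c' (fun a => Dead U c (π a)) a by
    obtain ⟨c', π, h1, h2⟩ := H
    exact ⟨c', π, h1, fun a => h2 a true⟩
  refine loop (fun c mk => ∀ s i, mk s i → Dead U c s i)
    (fun c mk a _ => QR D U R c mk a)
    (fun c c' π mk h hi s i hm => (hi _ _ hm).ext hU h)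
    (fun c c' π mk a _ h hq => hq.ext hU hR h) ?_ c (Dead U c) (fun _ _ h => h)
  clear c
  intro c mk hI
  have hn : ∃ n, ∀ s i, mk s i → ∀ h, c.P h → ¬ U n fun x => decide (h x = s ∧ A x = i) := by
    have : ∀ y : c.α × Bool, ∃ n, mk y.1 y.2 →
        ∀ h, c.P h → ¬ U n fun x => decide (h x = y.1 ∧ A x = y.2) := by
      intro y
      by_cases hy : mk y.1 y.2
      · obtain ⟨n, hn⟩ := hI _ _ hy
        exact ⟨n, fun _ h hh => by convert hn h hh⟩
      · exact ⟨0, fun h => absurd h hy⟩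
    choose N hN using this
    obtain ⟨n, hn⟩ := (Set.finite_range N).bddAbove
    exact ⟨n, fun s i hm h hh hu => hN (s, i) hm h hh (hU.anti _ _ _ (hn ⟨(s, i), rfl⟩) hu)⟩
  obtain ⟨n, hn⟩ := hn
  let O := Qu U R c mk (QR D U R c mk) n
  have hO : Sig M O := sig_Qu hU hR c mk _ n
  have := Fintype.ofFinite c.α
  have hW : CE M fun p => ∀ h, O p h :=
    (hO.ce_forall (L := fun _ => (Finset.univ : Finset (c.α × Bool)).toList)
      (by fun_prop)).of_iff fun p => by simp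
  rcases valuation hM hW (fun p q hpq H h => by
      rcases H h with h1 | h1 | ⟨y, τ, ⟨h1, z, h2, h3⟩, h4⟩
      · exact Or.inl h1
      · exact Or.inr (Or.inl h1)
      · exact Or.inr (Or.inr ⟨y, τ, ⟨h1, z, hpq z h2, h3⟩, h4⟩)) with ⟨p, hp, H⟩ | ⟨p, hp, hinc⟩
  · right
    obtain ⟨h, hh⟩ := c.ne
    rcases H (fun x => (h x, A x)) with h1 | ⟨⟨s, i⟩, h1, h2⟩ | ⟨⟨s, i⟩, τ, ⟨h1, z, h2, h3⟩, h4⟩
    · exact absurd hh h1
    · refine absurd (hU.mono n _ _ (fun x _ hx => ?_) h2) (hn s i h1 h hh)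
      simpa using hx
    · have hτ : SExt (c.σ s i) τ fun x => h x = s ∧ A x = i :=
        h4.mono fun x hx => by simpa using hx
      refine ⟨c.upd s i h hh τ hτ, id, c.ext_upd _ _ _ _ _ _, Function.injective_id, s, i, h1.1,
        Or.inl ⟨i, h1.2, Or.inl ⟨z.1, z.2, ?_, hp z h2⟩⟩⟩
      rw [Cond.upd_σ]
      exact h3
  · left
    let k := Fintype.card (c.α × Bool) + 1
    have hJ : ∀ a : Fin k → c.α × Bool, ∃ j j' : Fin k, j < j' ∧ a j = a j' := by
      intro a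
      obtain ⟨j, j', h1, h2⟩ := Fintype.exists_ne_map_eq_of_card_lt a (by simp [k])
      rcases lt_or_gt_of_ne h1 with h | h
      · exact ⟨j, j', h, h2⟩
      · exact ⟨j', j, h, h2.symm⟩
    choose J J' hJ hJ' using hJ
    let c' := c.prod k (fun j => O (p j)) (hO.comp (InM.fin (fun j : Fin k => p j) InM.id'))
      (fun j => by simpa using hp j) J
    let π : (Fin k → c.α × Bool) → c.α := fun a => (a (J a)).1
    have hext : Ext c c' π := by
      intro g hg a
      refine ⟨fun x => (g x (J a)).1, ?_, fun x hx => by rw [← hx], fun i => SExt.refl _ _⟩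
      by_contra hc
      exact hg (J a) (Or.inl hc)
    refine ⟨c', π, hext, fun a _ => ?_⟩
    by_cases hq : QR D U R c mk (π a)
    · exact hq.ext hU hR hext
    by_cases hm : mk (π a) (a (J a)).2
    · refine Or.inr fun i => ⟨n, fun g hg hu => hg (J a) (Or.inr (Or.inl ⟨a (J a), hm, ?_⟩))⟩
      refine hU.mono n _ _ (fun x _ hx => ?_) hu
      simp only [decide_eq_true_eq] at hx ⊢
      rw [← hx.1]
    · obtain ⟨m, hm1, hm2⟩ := hinc (J a) (J' a) (hJ a)
      refine Or.inl ⟨(a (J a)).2, hm, Or.inr ⟨m, fun g hg τ b hτ hr => ?_⟩⟩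
      cases b
      · exact hg (J a) (Or.inr (Or.inr ⟨a (J a), τ, ⟨⟨hq, hm⟩, _, hm1, hr⟩,
          SExt.mono hτ fun x hx => by rw [← hx]⟩))
      · exact hg (J' a) (Or.inr (Or.inr ⟨a (J a), τ, ⟨⟨hq, hm⟩, _, hm2, hr⟩,
          SExt.mono hτ fun x hx => by rw [hJ' a, ← hx]⟩))

theorem liu (hM : Nice D M) (hU : LN M U) (A : ℕ → Bool) : ∃ (G : ℕ → Bool) (i : Bool),
    Nice D (adj M G) ∧ Large U G ∧ ∀ x, G x = true → A x = i := by
  obtain ⟨e, he, he'⟩ := exists_enum_req hM.count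
  let R : ℕ → Bool → List Bool → ℕ → Bool → Prop := fun t i =>
    e (cond i t.unpair.1 t.unpair.2)
  let step : ℕ → Cond M A → Cond M A → Prop := fun t c c' => ∃ π, Ext c c' π ∧
    (∀ a i, Dead U c' a i ∨ (U t (fun x => (c'.σ a i).getD x false) ∧ t ≤ (c'.σ a i).length)) ∧
    ∀ a, (∃ i, ¬ Dead U c (π a) i ∧ Sat D c' a i (R t i)) ∨ ∀ i, Dead U c' a i
  have hstep : ∀ t c, ∃ c', step t c c' := by
    intro t c
    obtain ⟨c1, π1, h1, h2⟩ := step_req hM hU (R := R t) (fun i => he _) c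
    obtain ⟨c2, π2, h3, h4⟩ := step_large hU t c1
    refine ⟨c2, π1 ∘ π2, h1.trans h3, h4, fun a => ?_⟩
    rcases h2 (π2 a) with ⟨i, h5, h6⟩ | h5
    · exact Or.inl ⟨i, h5, h6.ext h3 (he _)⟩
    · exact Or.inr fun i => (h5 i).ext hU h3
  let c0 : Cond M A :=
    { α := Unit
      P := fun _ => True
      sig := Sig.of_ce (CE.const _)
      ne := ⟨fun _ => (), trivial⟩
      σ := fun _ _ => []
      inA := fun _ _ _ h => by simp at h }
  obtain ⟨c, -, hc⟩ := exists_chain step hstep c0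
  choose π hπ hL hS using hc
  obtain ⟨a, ha⟩ := konig (α := fun t => (c t).α) (fun t s => ¬ ∀ i, Dead U (c t) s i)
    (fun t => exists_alive hU (c t)) π
    (fun t s hs hd => hs fun i => (hd i).ext hU (hπ t))
  have hdead : ∀ i t t', t ≤ t' → Dead U (c t) (a t) i → Dead U (c t') (a t') i := by
    intro i t t' h hd
    induction h with
    | refl => exact hd
    | step _ ih => exact Dead.ext hU (hπ _) ((ha _).2.symm ▸ ih)
  have hsat : ∀ i R', IsReq M R' → ∀ t t', t ≤ t' → Sat D (c t) (a t) i R' →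
      Sat D (c t') (a t') i R' := by
    intro i R' hR' t t' h hd
    induction h with
    | refl => exact hd
    | step _ ih => exact Sat.ext (hπ _) hR' ((ha _).2.symm ▸ ih)
  have hstage : ∀ t, ∃ i, ¬ Dead U (c t) (a t) i ∧ Sat D (c (t + 1)) (a (t + 1)) i (R t i) := by
    intro t
    rcases hS t (a (t + 1)) with ⟨i, h1, h2⟩ | h1
    · exact ⟨i, (ha t).2 ▸ h1, h2⟩
    · exact absurd h1 (ha _).1
  have hside : ∃ i, (∀ t, ¬ Dead U (c t) (a t) i) ∧ ∀ k, ∃ t, Sat D (c t) (a t) i (e k) := by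
    by_cases h0 : ∃ t, Dead U (c t) (a t) false
    · obtain ⟨t0, h0⟩ := h0
      refine ⟨true, fun t hd => (ha (max t t0)).1 fun i => ?_, fun k => ?_⟩
      · cases i
        · exact hdead _ _ _ (le_max_right _ _) h0
        · exact hdead _ _ _ (le_max_left _ _) hd
      · obtain ⟨i, h1, h2⟩ := hstage (Nat.pair k t0)
        cases i
        · exact absurd (hdead _ _ _ (Nat.right_le_pair k t0) h0) h1
        · exact ⟨_, by simpa [R] using h2⟩
    by_cases h1 : ∃ t, Dead U (c t) (a t) true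
    · obtain ⟨t0, h1⟩ := h1
      refine ⟨false, fun t hd => h0 ⟨t, hd⟩, fun k => ?_⟩
      obtain ⟨i, h1', h2⟩ := hstage (Nat.pair t0 k)
      cases i
      · exact ⟨_, by simpa [R] using h2⟩
      · exact absurd (hdead _ _ _ (Nat.left_le_pair t0 k) h1) h1'
    by_cases h2 : ∀ k, ∃ t, Sat D (c t) (a t) true (e k)
    · exact ⟨true, fun t hd => h1 ⟨t, hd⟩, h2⟩
    · simp only [not_forall, not_exists] at h2
      obtain ⟨k1, hk1⟩ := h2
      refine ⟨false, fun t hd => h0 ⟨t, hd⟩, fun k => ?_⟩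
      obtain ⟨i, -, h2⟩ := hstage (Nat.pair k1 k)
      cases i
      · exact ⟨_, by simpa [R] using h2⟩
      · exact absurd (by simpa [R] using h2) (hk1 _)
  obtain ⟨i, hnd, hs⟩ := hside
  have hL' : ∀ t, U t (fun x => ((c (t + 1)).σ (a (t + 1)) i).getD x false) ∧
      t ≤ ((c (t + 1)).σ (a (t + 1)) i).length := fun t => (hL t _ i).resolve_left (hnd _)
  obtain ⟨G, hG1, hG2, hG3⟩ := exists_limit (fun t => (c t).σ (a t) i)
    (fun t => (ha t).2 ▸ (hπ t).pref (a (t + 1)) i) (fun t => (hL' t).2)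
  refine ⟨G, i, nice_adj hM fun R' hR' => ?_, fun n => ?_, fun x hx => ?_⟩
  · obtain ⟨k, rfl⟩ := he' R' hR'
    obtain ⟨t, ht⟩ := hs k
    rcases ht with ⟨n, b, h1, h2⟩ | ⟨n, hn⟩
    · exact Or.inl ⟨_, n, b, (hG2 t).symm ▸ h1, h2⟩
    · have key : ∀ t', t ≤ t' → ∀ h, (c t').P h → ∀ τ b,
          SExt ((c t').σ (a t') i) τ (fun x => h x = a t') → ¬ e k τ n b := by
        intro t' h
        induction h with
        | refl => exact hn
        | @step m _ ih =>
          intro g' hg' τ b hτ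
          obtain ⟨g, h1, h2, h3⟩ := hπ m g' hg' (a (m + 1))
          rw [(ha m).2] at h2 h3
          exact ih g h1 τ b ((h3 i).trans hτ h2)
      refine Or.inr ⟨n, fun u b h => ?_⟩
      obtain ⟨g, hg⟩ := (c (max t (u + 1))).ne
      exact key _ (le_max_left _ _) g hg _ b (SExt.refl _ _)
        (hR'.2 _ _ _ _ (hG3 u _ (by omega)) h)
  · refine hU.mono _ _ _ (fun x _ hx => ?_) (hL' n).1
    exact (hG1 (n + 1) x (lt_of_getD hx)).trans hx
  · refine (c (x + 2)).inA (a (x + 2)) i x (getD_mono (hG3 (x + 1) _ (by omega)) ?_)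
    rw [pre_getD G (Nat.lt_succ_self x)]
    exact hx

end Pool.Agent.H362Z.PRT
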