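import Pool.Agent.H362Z.PRT.E

/-!
Solving one instance of the packed Ramsey theorem for pairs.
-/

set_option autoImplicit false

namespace Pool.Agent.H362Z.PRT

variable {M : SA} {D : ℕ → Bool → Prop}

lemma rt1 {U : ℕ → (ℕ → Bool) → Prop} (a : ℕ → ℕ) (k : ℕ) : ∀ M : SA, Nice D M → LN M U →
    ∀ C : ℕ → Bool, InM M C → Large U C → (∀ x, C x = true → a x ≤ k) →
    ∃ (N : SA) (G : ℕ → Bool) (v : ℕ), Le M N ∧ Nice D N ∧ InM N G ∧ Large U G ∧
      ∀ x, G x = true → C x = true ∧ a x = v := by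
  induction k with
  | zero =>
    intro M hM _ C hC hL ha
    exact ⟨M, C, 0, Le.refl M, hM, hC, hL, fun x hx => ⟨hx, by have := ha x hx; omega⟩⟩
  | succ k ih =>
    intro M hM hU C hC hL ha
    obtain ⟨G, i, h1, h2, h3⟩ := liu hM (hU.rel hC hL) fun x => decide (a x = k + 1)
    have h4 : InM (adj M G) fun x => G x && C x := (inM_adj M G).band (hC.mono (le_adj M G))
    cases i
    · obtain ⟨N, G', v, h5, h6, h7, h8, h9⟩ := ih (adj M G) h1 (hU.monoM (le_adj M G)) _ h4 h2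
        (fun x hx => by
          simp only [Bool.and_eq_true] at hx
          have h5 := h3 x hx.1
          have h6 := ha x hx.2
          simp only [decide_eq_false_iff_not] at h5
          omega)
      refine ⟨N, G', v, (le_adj M G).trans h5, h6, h7, h8, fun x hx => ⟨?_, (h9 x hx).2⟩⟩
      have := (h9 x hx).1
      simp only [Bool.and_eq_true] at this
      exact this.2
    · refine ⟨adj M G, _, k + 1, le_adj M G, h1, h4, h2, fun x hx => ?_⟩
      simp only [Bool.and_eq_true] at hx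
      exact ⟨hx.2, by simpa using h3 x hx.1⟩

variable (F : ℕ → ℕ → ℕ) (φ : ℕ → ℕ) (k : ℕ)

/-- homogeneous blocks -/
def Blk (n w : ℕ) (Y : List ℕ) (c : ℕ) : Prop :=
  (n < w ∧ c < k ∧ φ w ≤ Y.length) ∧ (∀ y ∈ Y, n < y ∧ y ≤ w) ∧
    Y.Pairwise fun x y => x < y ∧ F x y = c

/-- the largeness notion of the instance -/
def UU (n : ℕ) (X : ℕ → Bool) : Prop :=
  ∃ u, ∀ g : ℕ → ℕ, (∀ x, g x ≤ n) → ∃ w Y c d, Blk F φ k n w Y c ∧
    ∀ y ∈ Y, (y < u ∧ X y = true) ∧ g y = d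

variable {F φ k}

lemma Blk.anti {m n w : ℕ} {Y : List ℕ} {c : ℕ} (h : Blk F φ k n w Y c) (e : m ≤ n) :
    Blk F φ k m w Y c :=
  ⟨⟨by have := h.1.1; omega, h.1.2⟩, fun y hy => ⟨by have := (h.2.1 y hy).1; omega, (h.2.1 y hy).2⟩,
    h.2.2⟩

lemma dec_Blk (hF : InM M fun x : ℕ × ℕ => F x.1 x.2) (hφ : InM M φ) :
    Dec M fun x : ℕ × ℕ × List ℕ × ℕ => Blk F φ k x.1 x.2.1 x.2.2.1 x.2.2.2 := by
  have h1 : Dec M fun x : ℕ × ℕ × List ℕ × ℕ => ∀ j < x.2.2.1.length, ∀ i < j,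
      x.2.2.1.getD i 0 < x.2.2.1.getD j 0 ∧ F (x.2.2.1.getD i 0) (x.2.2.1.getD j 0) = x.2.2.2 :=
    Dec.ball (p := fun (x : ℕ × ℕ × List ℕ × ℕ) j => ∀ i < j,
      x.2.2.1.getD i 0 < x.2.2.1.getD j 0 ∧ F (x.2.2.1.getD i 0) (x.2.2.1.getD j 0) = x.2.2.2)
      (by fun_prop) (Dec.ball (p := fun (x : (ℕ × ℕ × List ℕ × ℕ) × ℕ) i =>
        x.1.2.2.1.getD i 0 < x.1.2.2.1.getD x.2 0 ∧
          F (x.1.2.2.1.getD i 0) (x.1.2.2.1.getD x.2 0) = x.1.2.2.2) (by fun_prop)
        ((Dec.lt (by fun_prop) (by fun_prop)).and (Dec.eq (hF.comp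
          (g := fun x : ((ℕ × ℕ × List ℕ × ℕ) × ℕ) × ℕ =>
            (x.1.1.2.2.1.getD x.2 0, x.1.1.2.2.1.getD x.1.2 0)) (by fun_prop)) (by fun_prop))))
  refine Dec.and ((Dec.lt (by fun_prop) (by fun_prop)).and ((Dec.lt (by fun_prop)
    (by fun_prop)).and (Dec.le (by fun_prop) (by fun_prop)))) (Dec.and (Dec.allMem
      (p := fun (x : ℕ × ℕ × List ℕ × ℕ) y => x.1 < y ∧ y ≤ x.2.1) (by fun_prop)
      ((Dec.lt (by fun_prop) (by fun_prop)).and (Dec.le (by fun_prop) (by fun_prop))))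
      (h1.of_iff fun x => ?_))
  rw [List.pairwise_iff_getElem]
  constructor
  · intro h i j hi hj hij
    have := h j hj i hij
    rwa [List.getD_eq_getElem _ _ hi, List.getD_eq_getElem _ _ hj] at this
  · intro h j hj i hij
    rw [List.getD_eq_getElem _ _ (hij.trans hj), List.getD_eq_getElem _ _ hj]
    exact h i j _ hj hij

lemma sig_UU (hF : InM M fun x : ℕ × ℕ => F x.1 x.2) (hφ : InM M φ) : Sig M (UU F φ k) := by
  have h1 : Sig M fun (a : ℕ × List Bool) (g : ℕ → ℕ) => ∃ z : ℕ × List ℕ × ℕ × ℕ,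
      Blk F φ k a.1 z.1 z.2.1 z.2.2.1 ∧ ∀ i < z.2.1.length,
        a.2.getD (z.2.1.getD i 0) false = true ∧ g (z.2.1.getD i 0) = z.2.2.2 := by
    refine Sig.ex (O := fun (a : ℕ × List Bool) (z : ℕ × List ℕ × ℕ × ℕ) (g : ℕ → ℕ) =>
      Blk F φ k a.1 z.1 z.2.1 z.2.2.1 ∧ ∀ i < z.2.1.length,
        a.2.getD (z.2.1.getD i 0) false = true ∧ g (z.2.1.getD i 0) = z.2.2.2) ?_
    refine (Sig.of_ce ((dec_Blk hF hφ).1.comp
      (f := fun x : (ℕ × List Bool) × (ℕ × List ℕ × ℕ × ℕ) => (x.1.1, x.2.1, x.2.2.1, x.2.2.2.1))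
      (by fun_prop))).and ?_
    refine Sig.ball (O := fun (x : (ℕ × List Bool) × (ℕ × List ℕ × ℕ × ℕ)) i (g : ℕ → ℕ) =>
      x.1.2.getD (x.2.2.1.getD i 0) false = true ∧ g (x.2.2.1.getD i 0) = x.2.2.2.2)
      (t := fun x => x.2.2.1.length) (by fun_prop) ?_
    exact Sig.eval (p := fun (x : ((ℕ × List Bool) × (ℕ × List ℕ × ℕ × ℕ)) × ℕ) (b : ℕ) =>
      x.1.1.2.getD (x.1.2.2.1.getD x.2 0) false = true ∧ b = x.1.2.2.2.2)
      ((CE.eq (by fun_prop) (by fun_prop)).and (CE.eq (by fun_prop) (by fun_prop)))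
      (t := fun x => x.1.2.2.1.getD x.2 0) (by fun_prop)
  refine Sig.mk' (fun n l => ∀ g : ℕ → ℕ, (∀ x, g x ∈ List.range (n + 1)) →
    ∃ z : ℕ × List ℕ × ℕ × ℕ, Blk F φ k n z.1 z.2.1 z.2.2.1 ∧ ∀ i < z.2.1.length,
      l.getD (z.2.1.getD i 0) false = true ∧ g (z.2.1.getD i 0) = z.2.2.2)
    (h1.ce_forall (L := fun a => List.range (a.1 + 1)) (by fun_prop)) fun n X => ?_
  refine exists_congr fun u => forall_congr' fun g => imp_congr (by simp) ?_
  have key : ∀ y, (pre X u).getD y false = true ↔ y < u ∧ X y = true := by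
    intro y
    constructor
    · intro h
      have h2 := lt_of_getD h
      rw [length_pre] at h2
      exact ⟨h2, (pre_getD X h2 false).symm.trans h⟩
    · exact fun h => (pre_getD X h.1 false).trans h.2
  constructor
  · rintro ⟨w, Y, c, d, h2, h3⟩
    refine ⟨(w, Y, c, d), h2, fun i hi => ?_⟩
    rw [key, List.getD_eq_getElem _ _ hi]
    exact h3 _ (List.getElem_mem hi)
  · rintro ⟨⟨w, Y, c, d⟩, h2, h3⟩
    refine ⟨w, Y, c, d, h2, fun y hy => ?_⟩
    obtain ⟨i, hi, rfl⟩ := List.getElem_of_mem hy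
    have := h3 i hi
    rwa [key, List.getD_eq_getElem _ _ hi] at this

/-- the arrow relation with colours below `k` -/
def Arr (w m k : ℕ) : Prop :=
  ∀ g : ℕ → ℕ → ℕ, (∀ x y, g x y < k) → ∃ H ⊆ Finset.Icc 1 w, H.card = m ∧
    ∃ c, ∀ x ∈ H, ∀ y ∈ H, x < y → g x y = c

lemma UU_top (hk : ∀ x y, F x y < k) (harr : ∀ w, Arr w (φ w) (k + 1))
    (hinf : ∀ m, ∃ N, ∀ w, N ≤ w → m ≤ φ w) (n : ℕ) : UU F φ k n fun _ => true := by
  obtain ⟨N, hN⟩ := hinf (2 * n + 3)
  let w := max N (n + 1)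
  have hw := hN w (le_max_left _ _)
  refine ⟨w + 1, fun g hg => ?_⟩
  obtain ⟨H, h1, h2, c, h3⟩ := harr w (fun x y => if n < x ∧ g x = g y then F x y else k)
    fun x y => by have := hk x y; split_ifs <;> omega
  by_cases hc : c = k
  · exfalso
    have h4 : ∀ x ∈ H, ∀ y ∈ H, x < y → ¬ (n < x ∧ g x = g y) := by
      intro x hx y hy hxy h
      have h5 := h3 x hx y hy hxy
      have h6 := hk x y
      simp only [if_pos h] at h5
      omega
    have h5 : H.card ≤ (Finset.range (2 * n + 2)).card := by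
      refine Finset.card_le_card_of_injOn (fun x => if x ≤ n then x else n + 1 + g x)
        (fun x _ => ?_) fun x hx y hy e => ?_
      · have := hg x
        simp only [Finset.coe_range, Set.mem_Iio]
        split_ifs <;> omega
      · dsimp only at e
        rcases lt_trichotomy x y with h | h | h
        · have := h4 x hx y hy h
          split_ifs at e <;> omega
        · exact h
        · have := h4 y hy x hx h
          split_ifs at e <;> omega
    rw [Finset.card_range] at h5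
    omega
  · have h4 : ∀ x ∈ H, ∀ y ∈ H, x < y → (n < x ∧ g x = g y) ∧ F x y = c := by
      intro x hx y hy hxy
      have h5 := h3 x hx y hy hxy
      by_cases h : n < x ∧ g x = g y
      · exact ⟨h, by simpa only [if_pos h] using h5⟩
      · simp only [if_neg h] at h5
        exact absurd h5.symm hc
    have hne : H.Nonempty := Finset.card_pos.1 (by omega)
    obtain ⟨y1, hy1, hy1'⟩ := Finset.exists_mem_ne (s := H) (by omega) (H.min' hne)
    have hlt : H.min' hne < y1 := lt_of_le_of_ne (H.min'_le y1 hy1) hy1'.symm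
    have h5 := h4 _ (H.min'_mem hne) _ hy1 hlt
    have h6 : ∀ y ∈ H, n < y ∧ g y = g (H.min' hne) := by
      intro y hy
      rcases (H.min'_le y hy).lt_or_eq with h | h
      · have := h4 _ (H.min'_mem hne) _ hy h
        exact ⟨by omega, this.1.2.symm⟩
      · rw [← h]; exact ⟨h5.1.1, rfl⟩
    refine ⟨w, H.sort (· ≤ ·), c, g (H.min' hne), ⟨⟨by omega, h5.2 ▸ hk _ _, by simp [h2]⟩,
      fun y hy => ?_, ?_⟩, fun y hy => ?_⟩
    · rw [Finset.mem_sort] at hy
      exact ⟨(h6 y hy).1, (Finset.mem_Icc.1 (h1 hy)).2⟩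
    · have h7 : (H.sort (· ≤ ·)).Pairwise (· < ·) :=
        ((Finset.pairwise_sort H (· ≤ ·)).and (Finset.sort_nodup H (· ≤ ·))).imp
          fun h => lt_of_le_of_ne h.1 h.2
      refine h7.imp_of_mem fun {x y} hx hy h => ⟨h, ?_⟩
      rw [Finset.mem_sort] at hx hy
      exact (h4 x hx y hy h).2
    · rw [Finset.mem_sort] at hy
      have := (Finset.mem_Icc.1 (h1 hy)).2
      exact ⟨⟨by omega, rfl⟩, (h6 y hy).2⟩

lemma ln_UU (hF : InM M fun x : ℕ × ℕ => F x.1 x.2) (hφ : InM M φ) (hk : ∀ x y, F x y < k)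
    (harr : ∀ w, Arr w (φ w) (k + 1)) (hinf : ∀ m, ∃ N, ∀ w, N ≤ w → m ≤ φ w) :
    LN M (UU F φ k) := by
  refine ⟨sig_UU hF hφ, ?_, ?_, fun n => ⟨2 * n + 1, ?_⟩, UU_top hk harr hinf⟩
  · rintro n X Y h ⟨u, hu⟩
    refine ⟨u, fun g hg => ?_⟩
    obtain ⟨w, L, c, d, h1, h2⟩ := hu g hg
    exact ⟨w, L, c, d, h1, fun y hy =>
      ⟨⟨(h2 y hy).1.1, h y (h1.2.1 y hy).1.le (h2 y hy).1.2⟩, (h2 y hy).2⟩⟩
  · rintro m n X h ⟨u, hu⟩
    refine ⟨u, fun g hg => ?_⟩
    obtain ⟨w, L, c, d, h1, h2⟩ := hu g fun x => (hg x).trans h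
    exact ⟨w, L, c, d, h1.anti h, h2⟩
  · rintro X Y Z h ⟨u, hu⟩
    by_contra hc
    simp only [UU, not_or, not_exists, not_forall] at hc
    obtain ⟨g1, hg1, h1⟩ := hc.1 u
    obtain ⟨g2, hg2, h2⟩ := hc.2 u
    obtain ⟨w, L, c, d, h3, h4⟩ := hu (fun x => if X x = true then g1 x else n + 1 + g2 x)
      fun x => by have := hg1 x; have := hg2 x; split_ifs <;> omega
    by_cases hd : d ≤ n
    · refine h1 w L c d ⟨h3.anti (by omega), fun y hy => ?_⟩
      obtain ⟨⟨h5, -⟩, h6⟩ := h4 y hy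
      by_cases hx : X y = true
      · exact ⟨⟨h5, hx⟩, by simpa only [if_pos hx] using h6⟩
      · simp only [if_neg hx] at h6
        omega
    · refine h2 w L c (d - (n + 1)) ⟨h3.anti (by omega), fun y hy => ?_⟩
      obtain ⟨⟨h5, h7⟩, h6⟩ := h4 y hy
      by_cases hx : X y = true
      · simp only [if_pos hx] at h6
        have := hg1 y
        omega
      · simp only [if_neg hx] at h6
        exact ⟨⟨h5, (h y h7).resolve_left hx⟩, by omega⟩

/-- solutions of an instance -/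
def Sol (F : ℕ → ℕ → ℕ) (φ : ℕ → ℕ) (H : Set ℕ) : Prop :=
  {w | φ w ≤ (H ∩ Set.Icc 1 w).ncard}.Infinite ∧
    ∃ c v, ∀ x ∈ H, ∀ y ∈ H, x < y → F x y = c ∨ F x y = v

lemma greedy (hF : InM M fun x : ℕ × ℕ => F x.1 x.2) (hφ : InM M φ) {G : ℕ → Bool}
    (hG : InM M G) (hL : Large (UU F φ k) G) {v : ℕ}
    (hv : ∀ x, G x = true → ∃ N, ∀ y, N ≤ y → G y = true → F x y = v) :
    ∃ H : Set ℕ, Dec M (fun x => x ∈ H) ∧ Sol F φ H := by
  classical
  have hc : ∃ c, ∀ n, ∃ w Y, Blk F φ k n w Y c ∧ ∀ y ∈ Y, G y = true := by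
    by_contra hcon
    simp only [not_exists, not_forall] at hcon
    choose N hN using hcon
    obtain ⟨u, hu⟩ := hL ((Finset.range k).sup N)
    obtain ⟨w, Y, c, d, h1, h2⟩ := hu (fun _ => 0) fun _ => Nat.zero_le _
    exact hN c w Y ⟨h1.anti (Finset.le_sup (f := N) (Finset.mem_range.2 h1.1.2.1)),
      fun y hy => (h2 y hy).1.2⟩
  obtain ⟨c, hc⟩ := hc
  let dec : ℕ → ℕ × List ℕ := Denumerable.ofNat (ℕ × List ℕ)
  have hdec : InM M dec := InM.of_prim (Primrec.ofNat _)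
  let P : ℕ × List ℕ → ℕ → Prop := fun s z => Blk F φ k s.1 (dec z).1 (dec z).2 c ∧
    ∀ y ∈ (dec z).2, G y = true ∧ ∀ x ∈ s.2, G x = true → F x y = v
  have hP : Dec M fun x : (ℕ × List ℕ) × ℕ => P x.1 x.2 := by
    refine ((dec_Blk hF hφ).comp (f := fun x : (ℕ × List ℕ) × ℕ =>
      (x.1.1, (dec x.2).1, (dec x.2).2, c)) (by fun_prop)).and ?_
    refine Dec.allMem (p := fun (x : (ℕ × List ℕ) × ℕ) y =>
      G y = true ∧ ∀ z ∈ x.1.2, G z = true → F z y = v) (t := fun x => (dec x.2).2)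
      (by fun_prop) ?_
    refine (Dec.eq (by fun_prop) (by fun_prop)).and ?_
    refine Dec.allMem (p := fun (y : ((ℕ × List ℕ) × ℕ) × ℕ) x => G x = true → F x y.2 = v)
      (by fun_prop) ((Dec.eq (by fun_prop) (by fun_prop)).imp (Dec.eq ?_ (by fun_prop)))
    exact hF.comp (g := fun x : (((ℕ × List ℕ) × ℕ) × ℕ) × ℕ => (x.2, x.1.2)) (by fun_prop)
  have hex : ∀ s, ∃ z, P s z := by
    rintro ⟨w, L⟩
    have h1 : ∀ x, ∃ N, G x = true → ∀ y, N ≤ y → G y = true → F x y = v := by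
      intro x
      by_cases hx : G x = true
      · exact (hv x hx).imp fun _ h _ => h
      · exact ⟨0, fun h => absurd h hx⟩
    choose N hN using h1
    obtain ⟨w', Y, h2, h3⟩ := hc (max w (L.toFinset.sup N))
    refine ⟨Encodable.encode (w', Y), ?_⟩
    simp only [P, dec, Denumerable.ofNat_encode]
    refine ⟨h2.anti (le_max_left _ _), fun y hy => ⟨h3 y hy, fun x hx hGx => hN x hGx y ?_ (h3 y hy)⟩⟩
    have h4 := (h2.2.1 y hy).1
    have h5 : N x ≤ L.toFinset.sup N := Finset.le_sup (f := N) (List.mem_toFinset.2 hx)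
    omega
  have hfind : InM M fun s => Nat.find (hex s) := InM.find hP hex
  let step : ℕ × List ℕ → ℕ × List ℕ := fun s =>
    ((dec (Nat.find (hex s))).1, s.2 ++ (dec (Nat.find (hex s))).2)
  have hstep : InM M step := by
    refine InM.pair (hdec.comp hfind).fst (InM.append (by fun_prop) (hdec.comp hfind).snd)
  let s : ℕ → ℕ × List ℕ := fun t => step^[t] (0, [])
  have hs : InM M s := hstep.iterate _
  have hsucc : ∀ t, ∃ Y, Blk F φ k (s t).1 (s (t + 1)).1 Y c ∧ (s (t + 1)).2 = (s t).2 ++ Y ∧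
      ∀ y ∈ Y, G y = true ∧ ∀ x ∈ (s t).2, G x = true → F x y = v := by
    intro t
    have e : s (t + 1) = step (s t) := Function.iterate_succ_apply' _ _ _
    have h := Nat.find_spec (hex (s t))
    rw [e]
    exact ⟨_, h.1, rfl, h.2⟩
  choose Y hY1 hY2 hY3 using hsucc
  have hw : StrictMono fun t => (s t).1 := strictMono_nat_of_lt_succ fun t => (hY1 t).1.1
  have hmono : ∀ t t', t ≤ t' → ∀ x ∈ (s t).2, x ∈ (s t').2 := by
    intro t t' h x hx
    induction h with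
    | refl => exact hx
    | step _ ih => rw [hY2]; exact List.mem_append_left _ ih
  have hinv : ∀ t, (∀ x ∈ (s t).2, G x = true ∧ x ≤ (s t).1 ∧ x ∈ (s x).2) ∧
      ∀ x ∈ (s t).2, ∀ y ∈ (s t).2, x < y → F x y = c ∨ F x y = v := by
    intro t
    induction t with
    | zero => exact ⟨fun x hx => by simp [s] at hx, fun x hx => by simp [s] at hx⟩
    | succ t ih =>
      have h1 := (hY1 t).1.1
      constructor
      · intro x hx
        have hx' := hx
        rw [hY2, List.mem_append] at hx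
        rcases hx with hx | hx
        · exact ⟨(ih.1 x hx).1, by have := (ih.1 x hx).2.1; omega, (ih.1 x hx).2.2⟩
        · refine ⟨(hY3 t x hx).1, ((hY1 t).2.1 x hx).2, hmono _ _ ?_ x hx'⟩
          have h2 := ((hY1 t).2.1 x hx).1
          have h3 : t ≤ (s t).1 := hw.le_apply
          omega
      · intro x hx y hy hxy
        rw [hY2, List.mem_append] at hx hy
        rcases hx with hx | hx <;> rcases hy with hy | hy
        · exact ih.2 x hx y hy hxy
        · exact Or.inr ((hY3 t y hy).2 x hx (ih.1 x hx).1)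
        · have h2 := ((hY1 t).2.1 x hx).1
          have h3 := (ih.1 y hy).2.1
          omega
        · left
          have h2 := (hY1 t).2.2
          obtain ⟨i, hi, rfl⟩ := List.getElem_of_mem hx
          obtain ⟨j, hj, rfl⟩ := List.getElem_of_mem hy
          rw [List.pairwise_iff_getElem] at h2
          rcases lt_trichotomy i j with h | h | h
          · exact (h2 i j hi hj h).2
          · subst h; omega
          · have := (h2 j i hj hi h).1; omega
  refine ⟨{x | x ∈ (s x).2}, Dec.mem (by fun_prop) hs.snd, ?_, c, v, fun x hx y hy hxy => ?_⟩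
  · refine Set.infinite_of_injective_forall_mem (f := fun t => (s (t + 1)).1)
      (fun a b e => Nat.succ_injective (hw.injective e)) fun t => ?_
    have hnd : (Y t).Nodup := (hY1 t).2.2.imp fun h => h.1.ne
    refine (hY1 t).1.2.2.trans ?_
    rw [← List.toFinset_card_of_nodup hnd, ← Set.ncard_coe_finset]
    refine Set.ncard_le_ncard (fun y hy => ?_) ((Set.finite_Icc _ _).inter_of_right _)
    have hy' : y ∈ Y t := by simpa using hy
    have h1 := (hY1 t).2.1 y hy'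
    exact ⟨((hinv (t + 1)).1 y (by rw [hY2]; exact List.mem_append_right _ hy')).2.2,
      by omega, h1.2⟩
  · exact (hinv y).2 x (hmono _ _ hxy.le x hx) y hy hxy

theorem solve (hM : Nice D M) (hF : InM M fun x : ℕ × ℕ => F x.1 x.2) (hφ : InM M φ)
    (hk : ∀ x y, F x y < k) (harr : ∀ w, Arr w (φ w) (k + 1)) :
    ∃ N : SA, Le M N ∧ Nice D N ∧ ∃ H : Set ℕ, Dec N (fun x => x ∈ H) ∧ Sol F φ H := by
  by_cases hinf : ∀ m, ∃ N, ∀ w, N ≤ w → m ≤ φ w
  · have hU := ln_UU hF hφ hk harr hinf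
    obtain ⟨C, h1, h2, h3⟩ := coh hM hU
    have hlim : ∀ x, ∃ v, v ≤ k ∧ ∃ N, ∀ y, N ≤ y → C y = true → F x y = v := by
      intro x
      have h4 : ∀ v, ∃ b N, ∀ y, N ≤ y → C y = true → decide (F x y = v) = b := fun v =>
        h3 _ (Dec.eq (hF.comp (g := fun y : ℕ => (x, y)) (by fun_prop)) (InM.const v)).inM
      choose b N hN using h4
      by_cases hb : ∃ v < k, b v = true
      · obtain ⟨v, hv, hb⟩ := hb
        exact ⟨v, hv.le, N v, fun y hy hC => by simpa [hb] using hN v y hy hC⟩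
      · refine ⟨0, Nat.zero_le _, (Finset.range k).sup N, fun y hy hC => (hb ⟨F x y, hk x y, ?_⟩).elim⟩
        rw [← hN (F x y) y ((Finset.le_sup (f := N) (Finset.mem_range.2 (hk x y))).trans hy) hC]
        simp
    choose a ha hlim using hlim
    obtain ⟨N, G, v, h4, h5, h6, h7, h8⟩ := rt1 a k (adj M C) h1 (hU.monoM (le_adj M C)) C
      (inM_adj M C) h2 fun x _ => ha x
    have h9 := (le_adj M C).trans h4
    refine ⟨N, h9, h5, greedy (hF.mono h9) (hφ.mono h9) h6 h7 (v := v) fun x hx => ?_⟩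
    obtain ⟨N', hN'⟩ := hlim x
    exact ⟨N', fun y hy hG => (hN' y hy (h8 y hG).1).trans (h8 x hx).2⟩
  · simp only [not_forall, not_exists, not_le] at hinf
    obtain ⟨m, hm⟩ := hinf
    have h1 : {w | φ w < m}.Infinite := Set.infinite_of_forall_exists_gt fun N => by
      obtain ⟨w, h1, h2⟩ := hm (N + 1)
      exact ⟨w, h2, h1⟩
    obtain ⟨m', hm'⟩ : ∃ m', {w | φ w = m'}.Infinite := by
      by_contra hc
      simp only [not_exists, Set.not_infinite] at hc
      refine h1 (((Set.finite_Iio m).biUnion fun i _ => hc i).subset fun w hw => ?_)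
      simp only [Set.mem_iUnion]
      exact ⟨φ w, hw, rfl⟩
    obtain ⟨w0, hw0⟩ := hm'.nonempty
    obtain ⟨H, h2, h3, c, h4⟩ := harr w0 F fun x y => (hk x y).trans (Nat.lt_succ_self k)
    refine ⟨M, Le.refl M, hM, H, (Dec.mem (t := fun _ => H.toList) InM.id' (InM.const _)).of_iff
      fun x => by simp, ?_, c, c, fun x hx y hy hxy => Or.inl (h4 x hx y hy hxy)⟩
    refine (hm'.sdiff (Set.finite_Iio w0)).mono fun w hw => ?_
    have h5 : φ w = m' := hw.1
    have h6 : w0 ≤ w := not_lt.1 hw.2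
    have h7 : φ w0 = m' := hw0
    have h8 : (H : Set ℕ) ∩ Set.Icc 1 w = H := Set.inter_eq_left.2 fun x hx => by
      have := Finset.mem_Icc.1 (h2 hx)
      exact ⟨this.1, this.2.trans h6⟩
    change φ w ≤ _
    rw [h8, Set.ncard_coe_finset]
    omega

end Pool.Agent.H362Z.PRT
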