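import Pool.Agent.H362Z.PRT.F
import Pool.Agent.Helper617.RM.Defs

/-!
The base class of enumerable sets, the final class, and models of the base system.
-/

set_option autoImplicit false

open Encodable

namespace Pool.Agent.H362Z.PRT

/-- the recursively enumerable sets -/
def base : SA where
  S := {s | ∃ q : ℕ → ℕ → Prop, PrimrecRel q ∧ ∀ n, n ∈ s ↔ ∃ k, q n k}
  base p hp := ⟨fun n _ => p n, hp.comp Primrec.fst, fun n => by simp⟩
  subst := by
    rintro s ⟨q, h1, h2⟩ f hf
    exact ⟨fun n k => q (f n) k, h1.comp (hf.comp Primrec.fst) Primrec.snd, fun n => h2 _⟩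
  inter := by
    rintro s ⟨q, h1, h2⟩ t ⟨q', h1', h2'⟩
    refine ⟨fun n k => q n k.unpair.1 ∧ q' n k.unpair.2,
      (h1.comp Primrec.fst (Primrec.fst.comp (Primrec.unpair.comp Primrec.snd))).and
      (h1'.comp Primrec.fst (Primrec.snd.comp (Primrec.unpair.comp Primrec.snd))), fun n => ?_⟩
    rw [Set.mem_inter_iff, h2, h2']
    constructor
    · rintro ⟨⟨k, hk⟩, k', hk'⟩
      exact ⟨Nat.pair k k', by simpa using ⟨hk, hk'⟩⟩
    · rintro ⟨k, hk, hk'⟩
      exact ⟨⟨_, hk⟩, _, hk'⟩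
  union := by
    rintro s ⟨q, h1, h2⟩ t ⟨q', h1', h2'⟩
    refine ⟨fun n k => q n k ∨ q' n k, PrimrecPred.or h1 h1', fun n => ?_⟩
    rw [Set.mem_union, h2, h2', exists_or]
  proj := by
    rintro s ⟨q, h1, h2⟩
    refine ⟨fun n k => q (Nat.pair n k.unpair.1) k.unpair.2,
      h1.comp (Primrec₂.natPair.comp Primrec.fst
        (Primrec.fst.comp (Primrec.unpair.comp Primrec.snd)))
        (Primrec.snd.comp (Primrec.unpair.comp Primrec.snd)), fun n => ?_⟩
    simp only [Set.mem_ofPred_eq, h2]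
    constructor
    · rintro ⟨k, k', hk⟩
      exact ⟨Nat.pair k k', by simpa using hk⟩
    · rintro ⟨k, hk⟩
      exact ⟨_, _, hk⟩
  ball := by
    rintro s ⟨q, h1, h2⟩
    have h3 : PrimrecRel fun (K y : ℕ) => ∃ k < K, q y k :=
      PrimrecRel.exists_lt (R := fun k y => q y k) (h1.comp Primrec.snd Primrec.fst)
    have h4 : PrimrecRel fun (b y : ℕ) => ∀ i < b,
        ∃ k < y.unpair.2, q (Nat.pair y.unpair.1 i) k :=
      PrimrecRel.forall_lt (R := fun i y => ∃ k < y.unpair.2, q (Nat.pair y.unpair.1 i) k)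
        (h3.comp (Primrec.snd.comp (Primrec.unpair.comp Primrec.snd))
          (Primrec₂.natPair.comp (Primrec.fst.comp (Primrec.unpair.comp Primrec.snd)) Primrec.fst))
    refine ⟨fun n K => ∀ i < n.unpair.2, ∃ k < K, q (Nat.pair n.unpair.1 i) k,
      (h4.comp (Primrec.snd.comp (Primrec.unpair.comp Primrec.fst)) (Primrec₂.natPair.comp
        (Primrec.fst.comp (Primrec.unpair.comp Primrec.fst)) Primrec.snd)).of_eq
        fun x => by simp, fun n => ?_⟩
    simp only [Set.mem_ofPred_eq, h2]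
    constructor
    · intro H
      have : ∀ i, ∃ k, i < n.unpair.2 → q (Nat.pair n.unpair.1 i) k := by
        intro i
        by_cases hi : i < n.unpair.2
        · exact (H i hi).imp fun _ h _ => h
        · exact ⟨0, fun h => absurd h hi⟩
      choose k hk using this
      refine ⟨(Finset.range n.unpair.2).sup k + 1, fun i hi => ⟨k i, Nat.lt_succ_of_le ?_, hk i hi⟩⟩
      exact Finset.le_sup (f := k) (Finset.mem_range.2 hi)
    · rintro ⟨K, hK⟩ i hi
      obtain ⟨k, -, hk⟩ := hK i hi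
      exact ⟨k, hk⟩

/-- approximation of the diagonal function -/
def Q0 (n : ℕ) (b : Bool) (k : ℕ) : Prop :=
  Nat.Partrec.Code.evaln k (Denumerable.ofNat Nat.Partrec.Code n) n = some (encode b)

/-- the diagonal function -/
def D0 (n : ℕ) (b : Bool) : Prop := ∃ k, Q0 n b k

lemma prim_Q0 : PrimrecPred fun x : (ℕ × Bool) × ℕ => Q0 x.1.1 x.1.2 x.2 :=
  Primrec.eq.comp (Nat.Partrec.Code.primrec_evaln.comp ((Primrec.snd.pair
    ((Primrec.ofNat _).comp (Primrec.fst.comp Primrec.fst))).pair (Primrec.fst.comp Primrec.fst)))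
    (Primrec.option_some.comp (Primrec.encode.comp (Primrec.snd.comp Primrec.fst)))

lemma D0_unique {n : ℕ} {b b' : Bool} (h : D0 n b) (h' : D0 n b') : b = b' := by
  obtain ⟨k, hk⟩ := h
  obtain ⟨k', hk'⟩ := h'
  have h1 := Nat.Partrec.Code.evaln_sound (show encode b ∈ _ from hk)
  have h2 := Nat.Partrec.Code.evaln_sound (show encode b' ∈ _ from hk')
  exact encode_injective (Part.mem_unique h1 h2)

lemma countable_primrec : {f : ℕ → ℕ | Nat.Primrec f}.Countable := by
  classical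
  refine Set.Countable.mono ?_ (Set.countable_range fun (c : Nat.Partrec.Code) (n : ℕ) =>
    (Nat.Partrec.Code.eval c n).toOption.getD 0)
  intro f hf
  obtain ⟨c, hc⟩ := Nat.Partrec.Code.exists_code.1 (Nat.Partrec.of_primrec hf)
  refine ⟨c, funext fun n => ?_⟩
  have : Nat.Partrec.Code.eval c n = Part.some (f n) := by rw [hc]; rfl
  simp only [this]
  simp [Part.toOption]

lemma nice_base : Nice D0 base := by
  classical
  refine ⟨?_, CE.exNat (p := fun (x : ℕ × Bool) k => Q0 x.1 x.2 k) (CE.of_prim prim_Q0), ?_⟩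
  · refine (countable_primrec.image fun f => {n | ∃ k, f (Nat.pair n k) = encode true}).mono ?_
    rintro s ⟨q, ⟨_, h1⟩, h2⟩
    obtain ⟨g, hg, e⟩ := exists_nat_primrec h1
    refine ⟨g, Primrec.nat_iff.1 hg, Set.ext fun n => ?_⟩
    rw [h2]
    refine exists_congr fun k => ?_
    have := e (n, k)
    simp only [encode_prod_val, encode_nat] at this
    rw [this, encode_injective.eq_iff]
    simp
  · rintro R ⟨s, ⟨q, h1, h2⟩, h3⟩ htot
    have h4 : PrimrecPred fun x : ℕ × ℕ => q (encode (x.1, x.2.bodd)) x.2.div2 :=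
      h1.comp (Primrec.encode.comp (Primrec.fst.pair (Primrec.nat_bodd.comp Primrec.snd)))
        (Primrec.nat_div2.comp Primrec.snd)
    let F : ℕ → ℕ → Option ℕ := fun n k =>
      if q (encode (n, k.bodd)) k.div2 then some (encode k.bodd) else none
    have h5 : Primrec₂ F := Primrec.ite h4 (Primrec.option_some.comp
      (Primrec.encode.comp (Primrec.nat_bodd.comp Primrec.snd))) (Primrec.const none)
    obtain ⟨c, hc⟩ := Nat.Partrec.Code.exists_code.1
      (Partrec.nat_iff.1 (Partrec.rfindOpt h5.to_comp))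
    obtain ⟨b, hb⟩ := htot (encode c)
    obtain ⟨k, hk⟩ := (h2 _).1 ((h3 (encode c, b)).1 hb)
    have h6 : (Nat.rfindOpt (F (encode c))).Dom := Nat.rfindOpt_dom.2
      ⟨Nat.bit b k, encode b, by simp only [F, Nat.bodd_bit, Nat.div2_bit, if_pos hk]; rfl⟩
    have h7 := Part.get_mem h6
    obtain ⟨k', hk'⟩ := Nat.rfindOpt_spec h7
    by_cases h8 : q (encode (encode c, k'.bodd)) k'.div2
    · simp only [F, if_pos h8, Option.mem_def, Option.some.injEq] at hk'
      refine ⟨encode c, k'.bodd, (h3 (encode c, k'.bodd)).2 ((h2 _).2 ⟨_, h8⟩), ?_⟩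
      rw [← hk'] at h7
      have h9 : encode k'.bodd ∈ Nat.Partrec.Code.eval c (encode c) := by rw [hc]; exact h7
      obtain ⟨j, hj⟩ := Nat.Partrec.Code.evaln_complete.1 h9
      refine ⟨j, ?_⟩
      unfold Q0
      rw [Denumerable.ofNat_encode]
      exact hj
    · simp only [F, if_neg h8] at hk'
      cases hk'

variable {D : ℕ → Bool → Prop}

/-- the instance has a solution in the class -/
def Solved (N : SA) (k : ℕ) (F : ℕ × ℕ → ℕ) (φ : ℕ → ℕ) : Prop :=
  (∀ x, F x < k) → (∀ w, Arr w (φ w) (k + 1)) →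
    ∃ H : Set ℕ, Dec N (fun x => x ∈ H) ∧ Sol (fun x y => F (x, y)) φ H

lemma Solved.mono {N N' : SA} (h : Le N N') {k : ℕ} {F : ℕ × ℕ → ℕ} {φ : ℕ → ℕ}
    (hs : Solved N k F φ) : Solved N' k F φ := fun h1 h2 =>
  (hs h1 h2).imp fun _ hH => ⟨hH.1.mono h, hH.2⟩

lemma ext_all {M : SA} (hM : Nice D M) : ∃ N, Le M N ∧ Nice D N ∧
    ∀ k F φ, InM M F → InM M φ → Solved N k F φ := by
  obtain ⟨r, hr, hr'⟩ := exists_enum_inM (α := ℕ × ℕ) (β := ℕ) hM.count
  obtain ⟨e, he, he'⟩ := exists_enum_inM (α := ℕ) (β := ℕ) hM.count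
  let C := {N : SA // Le M N ∧ Nice D N}
  let step : ℕ → C → C → Prop := fun t N N' => Le N.1 N'.1 ∧
    Solved N'.1 t.unpair.1 (r t.unpair.2.unpair.1) (e t.unpair.2.unpair.2)
  have hstep : ∀ t c, ∃ c', step t c c' := by
    rintro t ⟨N, h1, h2⟩
    by_cases h : (∀ x, r t.unpair.2.unpair.1 x < t.unpair.1) ∧
      ∀ w, Arr w (e t.unpair.2.unpair.2 w) (t.unpair.1 + 1)
    · obtain ⟨N', h3, h4, h5⟩ := solve (F := fun x y => r t.unpair.2.unpair.1 (x, y)) h2
        ((hr _).mono h1) ((he _).mono h1) (fun x y => h.1 _) h.2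
      exact ⟨⟨N', h1.trans h3, h4⟩, h3, fun _ _ => h5⟩
    · exact ⟨⟨N, h1, h2⟩, Le.refl N, fun h3 h4 => absurd ⟨h3, h4⟩ h⟩
  obtain ⟨s, -, hs⟩ := exists_chain step hstep ⟨M, Le.refl M, hM⟩
  refine ⟨sup (fun t => (s t).1) fun t => (hs t).1, (s 0).2.1.trans (le_sup (fun t => (s t).1) _ 0),
    nice_sup _ fun t => (s t).2.2, fun k F φ hF hφ => ?_⟩
  obtain ⟨i, rfl⟩ := hr' F hF
  obtain ⟨j, rfl⟩ := he' φ hφ
  have := (hs (Nat.pair k (Nat.pair i j))).2
  simp only [Nat.unpair_pair] at this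
  exact this.mono (le_sup (fun t => (s t).1) _ _)

theorem exists_final : ∃ N, Nice D0 N ∧ ∀ k F φ, InM N F → InM N φ → Solved N k F φ := by
  let C := {N : SA // Nice D0 N}
  let step : ℕ → C → C → Prop := fun _ N N' => Le N.1 N'.1 ∧
    ∀ k F φ, InM N.1 F → InM N.1 φ → Solved N'.1 k F φ
  have hstep : ∀ t c, ∃ c', step t c c' := by
    rintro t ⟨N, h⟩
    obtain ⟨N', h1, h2, h3⟩ := ext_all h
    exact ⟨⟨N', h2⟩, h1, h3⟩
  obtain ⟨s, -, hs⟩ := exists_chain step hstep ⟨base, nice_base⟩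
  refine ⟨sup (fun t => (s t).1) fun t => (hs t).1, nice_sup _ fun t => (s t).2,
    fun k F φ hF hφ => ?_⟩
  obtain ⟨t, ht⟩ := ce_sup hF
  obtain ⟨t', ht'⟩ := ce_sup hφ
  exact ((hs (max t t')).2 k F φ
    (InM.mono (le_of_le (fun t => (s t).1) (fun t => (hs t).1) (le_max_left _ _)) ht)
    (InM.mono (le_of_le (fun t => (s t).1) (fun t => (hs t).1) (le_max_right _ _)) ht')).mono
    (le_sup (fun t => (s t).1) _ _)

open Pool.Agent.Helper617.RM

/-- the structure with standard numbers and a given family of sets -/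
def om (I : Set (Set ℕ)) : L2Structure.{0} :=
  ⟨ℕ, 0, 1, fun a b => a + b, fun a b => a * b, fun a b => a < b, I⟩

/-- the decidable sets -/
def sets (N : SA) : Set (Set ℕ) := {X | Dec N fun x => x ∈ X}

lemma inM_term {N : SA} {α : Type} [Primcodable α] (t : Term (om (sets N))) {V : α → ℕ → ℕ}
    (hV : ∀ i, InM N fun a => V a i) : InM N (β := ℕ) fun a => t.val (V a) := by
  induction t with
  | var i => exact hV i
  | const c => exact InM.const (β := ℕ) c
  | zero => exact InM.const (β := ℕ) 0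
  | one => exact InM.const (β := ℕ) 1
  | add s t hs ht => exact InM.add hs ht
  | mul s t hs ht => exact InM.mul hs ht

lemma inM_cons {N : SA} {α : Type} [Primcodable α] {V : α → ℕ → ℕ} {f : α → ℕ} (hf : InM N f)
    (hV : ∀ i, InM N fun a => V a i) (i : ℕ) : InM N fun a => cons (f a) (V a) i := by
  cases i with
  | zero => exact hf
  | succ i => exact hV i

lemma dec_delta {N : SA} (θ : Delta0 (om (sets N))) : ∀ {α : Type} [Primcodable α]
    {V : α → ℕ → ℕ}, (∀ i, InM N fun a => V a i) → Dec N fun a => θ.Holds (V a) := by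
  induction θ with
  | eq s t => exact fun hV => Dec.eq (β := ℕ) (inM_term s hV) (inM_term t hV)
  | lt s t => exact fun hV => Dec.lt (inM_term s hV) (inM_term t hV)
  | mem t X => exact fun hV => Dec.comp (β := ℕ) X.2 (inM_term t hV)
  | neg φ ih => exact fun hV => (ih hV).not
  | and φ ψ ih ih' => exact fun hV => (ih hV).and (ih' hV)
  | ball t φ ih =>
    intro α _ V hV
    exact Dec.ball (p := fun a x => φ.Holds (cons x (V a))) (inM_term t hV)
      (ih (V := fun y : α × ℕ => cons y.2 (V y.1))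
        (inM_cons (by fun_prop) fun i => (hV i).comp (g := fun y : α × ℕ => y.1) (by fun_prop)))

theorem isModel (N : SA) : IsModelRCA0 (om (sets N)) where
  ax_succ_ne_zero n := Nat.succ_ne_zero n
  ax_succ_inj _ _ h := Nat.succ_injective h
  ax_add_zero _ := rfl
  ax_add_succ _ _ := rfl
  ax_mul_zero _ := rfl
  ax_mul_succ _ _ := rfl
  ax_not_lt_zero := Nat.not_lt_zero
  ax_lt_succ _ _ := Nat.lt_succ_iff_lt_or_eq
  sigma1_induction _ _ h0 hs n := Nat.rec h0 hs n
  delta1_comprehension θ ψ v h := by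
    have hV : ∀ i, InM N fun y : ℕ × ℕ => cons y.2 (cons y.1 v) i :=
      inM_cons (by fun_prop) (inM_cons (by fun_prop) fun i => InM.const (β := ℕ) (v i))
    refine ⟨CE.exNat (α := ℕ) (p := fun n k => θ.Holds (cons k (cons n v))) (dec_delta θ hV).1, ?_⟩
    refine (CE.exNat (α := ℕ) (p := fun n k => ¬ ψ.Holds (cons k (cons n v))) (dec_delta ψ hV).2).of_iff
      fun n => ?_
    exact not_forall.symm.trans (not_congr (h n).symm)

lemma Dec.image {N : SA} {α : Type} [Primcodable α] {T : Set α} (h : Dec N fun a => a ∈ T) :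
    encode '' T ∈ sets N := by
  refine ⟨CE.ex (p := fun n a => a ∈ T ∧ encode a = n)
    ((h.1.comp (by fun_prop)).and (CE.eq (by fun_prop) (by fun_prop))), ?_⟩
  have h1 : CE N fun n : ℕ => decode₂ α n = none ∨ ∃ a, a ∉ T ∧ encode a = n :=
    (CE.eq (InM.of_prim Primrec.decode₂) (InM.const _)).or
      (CE.ex (p := fun n a => a ∉ T ∧ encode a = n)
        ((h.2.comp (f := fun x : ℕ × α => x.2) (by fun_prop)).and
          (CE.eq (by fun_prop) (by fun_prop))))
  refine h1.of_iff fun n => ⟨?_, fun hn => ?_⟩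
  · rintro (h2 | ⟨a, h2, rfl⟩) ⟨b, hb, e⟩
    · exact decode₂_ne_none_iff.2 ⟨b, e⟩ h2
    · exact h2 (encode_injective e ▸ hb)
  · by_cases h2 : decode₂ α n = none
    · exact Or.inl h2
    · obtain ⟨a, rfl⟩ := decode₂_ne_none_iff.1 h2
      exact Or.inr ⟨a, fun ha => hn ⟨a, ha, rfl⟩, rfl⟩

/-- the tree of finite diagonally noncomputable strings -/
def tree : Set (List Bool) := {σ | ∀ e < σ.length, ∀ k < σ.length, ¬ Q0 e (σ.getD e false) k}

lemma dec_tree (N : SA) : Dec N fun σ => σ ∈ tree := by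
  have h : Dec N fun x : (ℕ × Bool) × ℕ => Q0 x.1.1 x.1.2 x.2 :=
    ⟨CE.of_prim prim_Q0, CE.of_prim prim_Q0.not⟩
  exact Dec.ball (p := fun (σ : List Bool) e => ∀ k < σ.length, ¬ Q0 e (σ.getD e false) k)
    (by fun_prop) (Dec.ball
      (p := fun (x : List Bool × ℕ) k => ¬ Q0 x.2 (x.1.getD x.2 false) k) (by fun_prop)
      (h.comp (f := fun x : (List Bool × ℕ) × ℕ => ((x.1.2, x.1.1.getD x.1.2 false), x.2))
        (by fun_prop)).not)

lemma tree_prefix {σ τ : List Bool} (h : σ <+: τ) (hτ : τ ∈ tree) : σ ∈ tree := by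
  intro e he k hk
  rw [← getD_of_prefix h he]
  exact hτ e (he.trans_le h.length_le) k (hk.trans_le h.length_le)

lemma tree_infinite : tree.Infinite := by
  classical
  let g : ℕ → Bool := fun e => decide (D0 e false)
  refine Set.infinite_of_injective_forall_mem (f := pre g)
    (fun a b e => by simpa using congrArg List.length e) fun n e he k _ hq => ?_
  rw [length_pre] at he
  rw [pre_getD g he] at hq
  by_cases h : D0 e false
  · have := D0_unique h ⟨k, hq⟩
    simp [g, h] at this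
  · have h1 : g e = false := by simp [g, h]
    exact h ⟨k, h1 ▸ hq⟩

lemma no_path {N : SA} (hN : Nice D0 N) {p : ℕ → Bool} (hp : {i | p i = true} ∈ sets N) :
    ∃ n, pre p n ∉ tree := by
  have h1 : InM N p := by
    have := Dec.inM (p := fun i => p i = true) hp
    simpa using this
  obtain ⟨n, b, rfl, k, hk⟩ := hN.good (fun n b => p n = b) h1 fun n => ⟨_, rfl⟩
  refine ⟨max n k + 1, fun h => h n (by simp) k (by simp) ?_⟩
  rwa [pre_getD p (by omega)]

end Pool.Agent.H362Z.PRT
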